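import Pool.Agent.Lib.Pf720ae.Osc.Multi

/-!
# Pointwise ergodic theorem along separable polynomial families of commuting maps
-/

set_option autoImplicit false
set_option linter.unusedSectionVars false

open MeasureTheory Filter Topology Finset
open scoped ENNReal NNReal

namespace Pool.Agent.Lib.Pf720ae

variable {κ : Type} [Fintype κ] [DecidableEq κ]
variable {X : Type} [MeasurableSpace X] {μ : Measure X}

/-- one polynomial curve, bounded functions -/
lemma one_poly [IsFiniteMeasure μ] {d : ℕ} {act : (Fin d → ℤ) → X → X} (h0 : ∀ x, act 0 x = x)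
    (hadd : ∀ p q x, act (p + q) x = act p (act q x)) (hmp : ∀ p, MeasurePreserving (act p) μ μ)
    (p : Fin d → Polynomial ℤ) {f : X → ℝ} (hf : Measurable f) (hf1 : ∀ x, |f x| ≤ 1) :
    ∀ᵐ x ∂μ, ∃ L : ℝ, Tendsto (fun N : ℕ => (N : ℝ)⁻¹ * ∑ t ∈ range N,
      f (act (fun i => (p i).eval (t : ℤ) - (p i).eval 0) x)) atTop (𝓝 L) := by
  set D : ℕ := ∑ i, (p i).natDegree with hD
  set R : (Fin D → ℕ) → X → X := fun v x =>
    act (fun i => ∑ e : Fin D, (p i).coeff ((e : ℕ) + 1) * (v e : ℤ)) x with hR
  have hRadd : ∀ m n x, R (m + n) x = R m (R n x) := by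
    intro m n x
    simp only [hR]
    rw [← hadd]
    congr 1
    funext i
    rw [Pi.add_apply, ← Finset.sum_add_distrib]
    refine Finset.sum_congr rfl fun e _ => ?_
    rw [Pi.add_apply]
    push_cast
    ring
  have hRmp : ∀ m, MeasurePreserving (R m) μ μ := fun m => hmp _
  have h2 : ∀ (t : ℕ) x, act (fun i => (p i).eval (t : ℤ) - (p i).eval 0) x = R (Poly.cur t) x := by
    intro t x
    simp only [hR]
    congr 1
    funext i
    have hdeg : (p i).natDegree < D + 1 := by
      have : (p i).natDegree ≤ D :=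
        Finset.single_le_sum (f := fun i => (p i).natDegree) (fun _ _ => Nat.zero_le _)
          (Finset.mem_univ i)
      omega
    rw [Polynomial.eval_eq_sum_range' hdeg, Finset.sum_range_succ']
    rw [← Polynomial.coeff_zero_eq_eval_zero, pow_zero, mul_one, add_sub_cancel_right,
      ← Fin.sum_univ_eq_sum_range (fun e => (p i).coeff (e + 1) * (t : ℤ) ^ (e + 1)) D]
    refine Finset.sum_congr rfl fun e _ => ?_
    unfold Poly.cur
    push_cast
    rfl
  have hfc : Measurable fun x => (f x : ℂ) := Complex.measurable_ofReal.comp hf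
  have hB : ∀ x, ‖(f x : ℂ)‖ ≤ 1 := fun x => by
    rw [Complex.norm_real]; exact hf1 x
  have hfin : ∫⁻ x, ‖(f x : ℂ)‖ₑ ^ 2 ∂μ ≠ ⊤ := by
    have h3 : ∫⁻ x, ‖(f x : ℂ)‖ₑ ^ 2 ∂μ ≤ ∫⁻ _, 1 ∂μ := by
      refine lintegral_mono fun x => ?_
      have h4 : ‖(f x : ℂ)‖ₑ ≤ 1 := by
        rw [← ofReal_norm]
        exact ENNReal.ofReal_le_one.2 (hB x)
      exact pow_le_one₀ zero_le h4
    refine ne_top_of_le_ne_top ?_ h3
    rw [lintegral_one]
    exact measure_ne_top _ _
  filter_upwards [Poly.ae_tendsto_bdd hRadd hRmp hfc hB hfin] with x hx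
  obtain ⟨ℓ, hℓ⟩ := hx
  refine ⟨ℓ.re, ?_⟩
  have h3 := (Complex.continuous_re.tendsto ℓ).comp hℓ
  refine h3.congr fun N => ?_
  simp only [Function.comp_apply, Poly.Av]
  have h4 : (N : ℂ)⁻¹ * ∑ n ∈ range N, (f (R (Poly.cur n) x) : ℂ) =
      (((N : ℝ)⁻¹ * ∑ n ∈ range N, f (R (Poly.cur n) x) : ℝ) : ℂ) := by
    push_cast; rfl
  rw [h4, Complex.ofReal_re]
  simp only [h2]

/-- bounded functions -/
theorem poly_bdd [IsFiniteMeasure μ] {d : ℕ} {act : (Fin d → ℤ) → X → X} (h0 : ∀ x, act 0 x = x)
    (hadd : ∀ p q x, act (p + q) x = act p (act q x)) (hmp : ∀ p, MeasurePreserving (act p) μ μ)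
    (p : κ → Fin d → Polynomial ℤ) {f : X → ℝ} (hf : Measurable f) (hf1 : ∀ x, |f x| ≤ 1) :
    ∀ᵐ x ∂μ, Cvg fun m : κ → ℕ => f (act (fun i => ∑ l, (p l i).eval ((m l : ℕ) : ℤ)) x) := by
  set S : (κ → ℕ) → X → X := fun m x =>
    act (fun i => ∑ l, ((p l i).eval ((m l : ℕ) : ℤ) - (p l i).eval 0)) x with hS
  have hsingle : ∀ (a : κ) (t : ℕ), (fun i => ∑ l, ((p l i).eval (((Pi.single a t : κ → ℕ) l : ℕ) : ℤ) -
      (p l i).eval 0)) = fun i => (p a i).eval (t : ℤ) - (p a i).eval 0 := by
    intro a t
    funext i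
    rw [Finset.sum_eq_single a]
    · rw [Pi.single_eq_same]
    · intro b _ hb
      rw [Pi.single_eq_of_ne hb]
      simp
    · intro h
      exact absurd (Finset.mem_univ a) h
  set c : Fin d → ℤ := fun i => ∑ l, (p l i).eval 0 with hc
  have hfc : Measurable fun x => f (act c x) := hf.comp (hmp c).measurable
  have hS0 : ∀ x, S 0 x = x := by
    intro x
    have h1 : (fun i => ∑ l, ((p l i).eval (((0 : κ → ℕ) l : ℕ) : ℤ) - (p l i).eval 0)) =
        (0 : Fin d → ℤ) := by
      funext i
      simp
    simp only [hS]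
    rw [h1]
    exact h0 x
  have hSmp : ∀ m, MeasurePreserving (S m) μ μ := fun m => hmp _
  have hsep : ∀ (a : κ) (m : κ → ℕ) (t : ℕ), m a = 0 → ∀ x,
      S (m + Pi.single a t) x = S m (S (Pi.single a t) x) := by
    intro a m t hma x
    simp only [hS]
    rw [← hadd]
    congr 1
    funext i
    rw [Pi.add_apply, ← Finset.sum_add_distrib]
    refine Finset.sum_congr rfl fun l _ => ?_
    by_cases hl : l = a
    · subst hl
      simp [hma]
    · simp [Pi.single_eq_of_ne hl]
  have hSs : ∀ (a : κ) (t : ℕ) x, S (Pi.single a t) x =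
      act (fun i => (p a i).eval (t : ℤ) - (p a i).eval 0) x := by
    intro a t x
    simp only [hS]
    rw [hsingle a t]
  have hone : ∀ (a : κ) (g : X → ℝ), Measurable g → (∀ x, |g x| ≤ 1) → ∀ᵐ x ∂μ, ∃ L : ℝ,
      Tendsto (fun N : ℕ => (N : ℝ)⁻¹ * ∑ t ∈ range N, g (S (Pi.single a t) x)) atTop (𝓝 L) := by
    intro a g hg hg1
    filter_upwards [one_poly h0 hadd hmp (p a) hg hg1] with x hx
    obtain ⟨L, hL⟩ := hx
    refine ⟨L, hL.congr fun N => ?_⟩
    simp only [hSs]
  have h1 : ∀ᵐ x ∂μ, Cvg fun m : κ → ℕ => f (act c (S m x)) :=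
    cvg_of_coord (S := S) hS0 hSmp hsep hone (f := fun x => f (act c x)) hfc (fun x => hf1 _)
  filter_upwards [h1] with x hx
  refine hx.congr fun m => ?_
  simp only [hS]
  rw [← hadd]
  congr 2
  funext i
  rw [Pi.add_apply, hc, ← Finset.sum_add_distrib]
  exact Finset.sum_congr rfl fun l _ => by ring

/-- square integrable functions -/
theorem poly_L2 [IsFiniteMeasure μ] {d : ℕ} {act : (Fin d → ℤ) → X → X} (h0 : ∀ x, act 0 x = x)
    (hadd : ∀ p q x, act (p + q) x = act p (act q x)) (hmp : ∀ p, MeasurePreserving (act p) μ μ)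
    (p : κ → Fin d → Polynomial ℤ) {φ : X → ℝ} (hφ : MemLp φ 2 μ) :
    ∀ᵐ x ∂μ, Cvg fun m : κ → ℕ => φ (act (fun i => ∑ l, (p l i).eval ((m l : ℕ) : ℤ)) x) := by
  set S : (κ → ℕ) → X → X := fun m x => act (fun i => ∑ l, (p l i).eval ((m l : ℕ) : ℤ)) x with hS
  have hSmp : ∀ m, MeasurePreserving (S m) μ μ := fun m => hmp _
  have hMax : MaxBd μ S := maxBd_poly h0 hadd hmp p
  set W : X → Set ((κ → ℕ) → ℝ) := fun _ => {fun _ => 1} with hW
  have hW1 : ∀ x, ∀ w ∈ W x, ∀ m, |w m| ≤ 1 := by
    rintro x w rfl m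
    simp
  have hC : Cv μ S W φ := by
    refine principle_max hMax hSmp hW1 (fun ψ hψm hψ hψo => ?_) φ hφ
    -- the sign of the function is good, hence the function vanishes
    have h1 : ∫ x, ψ x * SignType.sign (ψ x) ∂μ = 0 := by
      refine hψo (fun x => ((SignType.sign (ψ x) : SignType) : ℝ)) ?_ (fun x => ?_) ?_
      · have h2 : Measurable fun y : ℝ => ((SignType.sign y : SignType) : ℝ) := by
          have h3 : (fun y : ℝ => ((SignType.sign y : SignType) : ℝ)) =
              fun y => if 0 < y then 1 else if y < 0 then -1 else 0 := by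
            funext y
            rcases lt_trichotomy y 0 with h | h | h
            · simp [h, h.not_gt]
            · simp [h]
            · simp [h]
          rw [h3]
          exact Measurable.ite measurableSet_Ioi measurable_const
            (Measurable.ite measurableSet_Iio measurable_const measurable_const)
        exact h2.comp hψm
      · rcases lt_trichotomy (ψ x) 0 with h | h | h
        · simp [h]
        · simp [h]
        · simp [h]
      · have hm : Measurable fun x => ((SignType.sign (ψ x) : SignType) : ℝ) := by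
          have h2 : Measurable fun y : ℝ => ((SignType.sign y : SignType) : ℝ) := by
            have h3 : (fun y : ℝ => ((SignType.sign y : SignType) : ℝ)) =
                fun y => if 0 < y then 1 else if y < 0 then -1 else 0 := by
              funext y
              rcases lt_trichotomy y 0 with h | h | h
              · simp [h, h.not_gt]
              · simp [h]
              · simp [h]
            rw [h3]
            exact Measurable.ite measurableSet_Ioi measurable_const
              (Measurable.ite measurableSet_Iio measurable_const measurable_const)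
          exact h2.comp hψm
        have hb : ∀ x, |((SignType.sign (ψ x) : SignType) : ℝ)| ≤ 1 := by
          intro x
          rcases lt_trichotomy (ψ x) 0 with h | h | h
          · simp [h]
          · simp [h]
          · simp [h]
        filter_upwards [poly_bdd h0 hadd hmp p hm hb] with x hx w hw
        rw [hw]
        exact hx.congr fun m => by rw [mul_one]
    have h2 : ∀ x, ψ x * SignType.sign (ψ x) = |ψ x| := by
      intro x
      rw [mul_comm]
      exact sign_mul_self (ψ x)
    simp only [h2] at h1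
    have h3 : ψ =ᵐ[μ] 0 := by
      have h4 := (integral_eq_zero_iff_of_nonneg (fun x => abs_nonneg (ψ x))
        (hψ.integrable one_le_two).abs).1 h1
      filter_upwards [h4] with x hx
      simpa using hx
    exact Cv.congr hSmp h3.symm Cv.zero
  filter_upwards [hC] with x hx
  exact (hx _ rfl).congr fun m => mul_one _

end Pool.Agent.Lib.Pf720ae
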