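import Pool.Agent.Lib.Pf720ae.Osc.Level

/-!
# Approximation by the major arcs at arbitrary scales
-/

set_option autoImplicit false
set_option linter.unusedSectionVars false

open Finset

namespace Pool.Agent.Lib.Pf720ae.Poly

variable {D C : ℕ}

open Classical in
/-- contribution of the rational points of height about `2 ^ s`, at an arbitrary scale -/
noncomputable def LfN (N s : ℕ) (ξ : Fin D → ℝ) : ℂ :=
  if h : ∃ p, Near s ξ p then gs h.choose.1 h.choose.2 * vv (bet ξ h.choose) N else 0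

lemma LfN_pow (j s : ℕ) (ξ : Fin D → ℝ) : LfN (2 ^ j) s ξ = Lf j s ξ := rfl

lemma LfN_of_near {N s : ℕ} {ξ : Fin D → ℝ} {p : ℕ × (Fin D → ℤ)} (h : Near s ξ p) :
    LfN N s ξ = gs p.1 p.2 * vv (bet ξ p) N := by
  have hex : ∃ p, Near s ξ p := ⟨p, h⟩
  unfold LfN
  rw [dif_pos hex]
  obtain ⟨h1, h2⟩ := hex.choose_spec.unique h
  rw [h1, h2]

lemma LfN_of_not {N s : ℕ} {ξ : Fin D → ℝ} (h : ¬ ∃ p, Near s ξ p) : LfN N s ξ = 0 := by
  unfold LfN
  rw [dif_neg h]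

lemma norm_LfN_le (N s : ℕ) (ξ : Fin D → ℝ) : ‖LfN N s ξ‖ ≤ 1 := by
  by_cases h : ∃ p, Near s ξ p
  · obtain ⟨p, hp⟩ := h
    rw [LfN_of_near hp, norm_mul]
    exact mul_le_one₀ (norm_gs_le _ _) (norm_nonneg _) (norm_vv_le _ _)
  · rw [LfN_of_not h]; simp

/-- approximation by the major arcs -/
theorem approxN (hIW : IW D C) {j N : ℕ} (hjN : 2 ^ j ≤ N) (ξ : Fin D → ℝ) :
    ‖em ξ N - ∑ s ∈ range (j / 8 + 1), LfN N s ξ‖ ≤
      (26 * (1 + D) + 30) * (j + 1) * (1 / 2) ^ (j / (16 * (C + 1))) := by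
  set i := j / (16 * (C + 1)) with hi
  have hDn : (0 : ℝ) ≤ D := Nat.cast_nonneg D
  have hjn : (0 : ℝ) ≤ j := Nat.cast_nonneg j
  rcases Nat.eq_zero_or_pos i with h0 | hpos
  · -- trivial range
    rw [h0, pow_zero, mul_one]
    have h1 : ‖∑ s ∈ range (j / 8 + 1), LfN N s ξ‖ ≤ (j / 8 + 1 : ℕ) := by
      refine (norm_sum_le _ _).trans ?_
      refine (Finset.sum_le_sum fun s _ => norm_LfN_le N s ξ).trans ?_
      simp
    have h2 : ((j / 8 + 1 : ℕ) : ℝ) ≤ j + 1 := by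
      have : j / 8 + 1 ≤ j + 1 := by omega
      exact_mod_cast this
    refine (norm_sub_le _ _).trans ?_
    have h3 := norm_em_le ξ N
    nlinarith
  have hjC : 16 * (C + 1) * i ≤ j := by
    rw [hi]; exact Nat.mul_div_le j _
  have hj16 : 16 ≤ j := by
    have : 1 * 1 ≤ (C + 1) * i := Nat.mul_le_mul (by omega) hpos
    nlinarith
  have hiC : 16 * (i * C) ≤ j := by nlinarith
  have hij : 16 * i ≤ j := by nlinarith
  set δ : ℝ := (1 / 2) ^ i with hδ
  have hδ0 : 0 < δ := by positivity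
  have hδ2 : δ ≤ 1 / 2 := by
    rw [hδ]
    calc ((1 : ℝ) / 2) ^ i ≤ (1 / 2) ^ 1 := pow_le_pow_of_le_one (by norm_num) (by norm_num) hpos
      _ = 1 / 2 := pow_one _
  have hδC : δ⁻¹ ^ C = 2 ^ (i * C) := by
    rw [hδ, ← inv_pow, one_div, inv_inv, ← pow_mul]
  have hN0 : 0 < N := lt_of_lt_of_le (pow_pos two_pos j) hjN
  have hNR : (2 : ℝ) ^ j ≤ N := by exact_mod_cast hjN
  -- powers of two
  have hp : ∀ a b : ℕ, a ≤ b → (2 : ℝ) ^ a ≤ 2 ^ b := fun a b h =>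
    pow_le_pow_right₀ one_le_two h
  -- the error at a major arc
  have hmaj : ∀ (q : ℕ) (a : Fin D → ℤ) (β : Fin D → ℝ), 0 < q → (q : ℝ) ≤ 2 ^ (j / 8 + 1) →
      (∀ e, |β e| * (N : ℝ) ^ ((e : ℕ) + 1) ≤ 2 ^ (i * C)) →
      ‖em (fun e => (a e : ℝ) / q + β e) N - gs q a * vv β N‖ ≤
        26 * (1 + D) * δ := by
    intro q a β hq hqj hβ
    refine (major q hq a β N hN0).trans ?_
    have h1 : sz β (N : ℝ) ≤ D * 2 ^ (i * C) := sz_two_pow_le hβ
    have h2 : (1 : ℝ) ≤ 2 ^ (i * C) := one_le_pow₀ one_le_two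
    have h3 : 1 + sz β (N : ℝ) ≤ (1 + D) * 2 ^ (i * C) := by nlinarith
    have h4 : (q : ℝ) / (N : ℝ) ≤ 2 ^ (j / 8 + 1) / 2 ^ j := by
      gcongr
    have h5 : (0 : ℝ) ≤ 1 + sz β (N : ℝ) := by
      have := sz_nonneg β (Nat.cast_nonneg N : (0 : ℝ) ≤ _)
      linarith
    have h6 : (2 : ℝ) ^ (j / 8 + 1) * 2 ^ (i * C) * 2 ^ i ≤ 2 * 2 ^ j := by
      rw [← pow_add, ← pow_add, ← pow_succ']
      exact hp _ _ (by omega)
    have h7 : (2 : ℝ) ^ (j / 8 + 1) / 2 ^ j * 2 ^ (i * C) ≤ 2 * δ := by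
      rw [hδ, one_div, inv_pow, div_mul_eq_mul_div, div_le_iff₀ (by positivity),
        ← div_eq_mul_inv, div_mul_eq_mul_div, le_div_iff₀ (by positivity)]
      exact h6
    calc 13 * ((q : ℝ) / (N : ℝ)) * (1 + sz β (N : ℝ)) ≤
          13 * (2 ^ (j / 8 + 1) / 2 ^ j) * ((1 + D) * 2 ^ (i * C)) := by gcongr
      _ = 13 * (1 + D) * (2 ^ (j / 8 + 1) / 2 ^ j * 2 ^ (i * C)) := by ring
      _ ≤ 13 * (1 + D) * (2 * δ) := by gcongr
      _ = 26 * (1 + D) * δ := by ring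
  have hcard : ((j / 8 + 1 : ℕ) : ℝ) ≤ j + 1 := by
    have : j / 8 + 1 ≤ j + 1 := by omega
    exact_mod_cast this
  rcases le_or_gt δ ‖em ξ N‖ with hbig | hsmall
  · -- major arc
    obtain ⟨q', hq'0, hq', hqe⟩ := hIW δ hδ0 hδ2 N hN0 ξ hbig
    rw [hδC] at hq' hqe
    obtain ⟨q₀, a₀, hq₀0, hq₀q', hc₀, ha₀⟩ := exists_lowest q' hq'0
      (fun e => round ((q' : ℝ) * ξ e))
    have hq'R : (0 : ℝ) < q' := Nat.cast_pos.2 hq'0
    have hq'1 : (1 : ℝ) ≤ q' := by exact_mod_cast hq'0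
    have hβ : ∀ e, |ξ e - (a₀ e : ℝ) / q₀| ≤ 2 ^ (i * C) / (N : ℝ) ^ ((e : ℕ) + 1) := by
      intro e
      rw [ha₀ e]
      have h1 : |(q' : ℝ) * ξ e - round ((q' : ℝ) * ξ e)| =
          q' * |ξ e - (round ((q' : ℝ) * ξ e) : ℝ) / q'| := by
        rw [← abs_of_pos hq'R, ← abs_mul, abs_of_pos hq'R]
        congr 1
        field_simp
      have h2 := hqe e
      rw [h1] at h2
      exact (le_mul_of_one_le_left (abs_nonneg _) hq'1).trans h2
    have hsm : ∀ e : Fin D, (2 : ℝ) ^ (i * C) / (N : ℝ) ^ ((e : ℕ) + 1) ≤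
        2 ^ (i * C) / 2 ^ j := by
      intro e
      gcongr
      calc (2 : ℝ) ^ j = (2 ^ j) ^ 1 := (pow_one _).symm
        _ ≤ (2 ^ j) ^ ((e : ℕ) + 1) := pow_le_pow_right₀ (one_le_pow₀ one_le_two) (by omega)
        _ ≤ (N : ℝ) ^ ((e : ℕ) + 1) := pow_le_pow_left₀ (by positivity) hNR _
    have hsm2 : (2 : ℝ) ^ (i * C) / 2 ^ j ≤ (1 / 2) ^ (j - i * C) := by
      have h1 : (2 : ℝ) ^ j = 2 ^ (j - i * C) * 2 ^ (i * C) := by
        rw [← pow_add]; congr 1; omega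
      rw [h1, one_div_pow]
      rw [div_le_div_iff₀ (by positivity) (by positivity)]
      linarith
    have hsm3 : ∀ e, |ξ e - (a₀ e : ℝ) / q₀| ≤ (1 / 2) ^ (j - i * C) := fun e =>
      (hβ e).trans ((hsm e).trans hsm2)
    have hlt : ∀ e, |ξ e - (a₀ e : ℝ) / q₀| < 1 / 2 := by
      intro e
      refine lt_of_le_of_lt (hsm3 e) ?_
      calc ((1 : ℝ) / 2) ^ (j - i * C) ≤ (1 / 2) ^ 2 :=
            pow_le_pow_of_le_one (by norm_num) (by norm_num) (by omega)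
        _ < 1 / 2 := by norm_num
    have hbet : ∀ e, bet ξ (q₀, a₀) e = ξ e - (a₀ e : ℝ) / q₀ := fun e => fr_eq_of_abs_lt (hlt e)
    set s₀ := Nat.log 2 q₀ with hs₀
    have hs1 : 2 ^ s₀ ≤ q₀ := Nat.pow_log_le_self 2 hq₀0.ne'
    have hs2 : q₀ < 2 ^ (s₀ + 1) := Nat.lt_pow_succ_log_self one_lt_two q₀
    have hs₀le : s₀ ≤ i * C := by
      have h1 : (2 : ℝ) ^ s₀ ≤ 2 ^ (i * C) := by
        have a1 : ((2 ^ s₀ : ℕ) : ℝ) ≤ q₀ := by exact_mod_cast hs1
        have a2 : (q₀ : ℝ) ≤ q' := by exact_mod_cast hq₀q'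
        push_cast at a1
        exact a1.trans (a2.trans hq')
      exact (pow_le_pow_iff_right₀ one_lt_two).1 h1
    have hnear : Near s₀ ξ (q₀, a₀) := by
      refine ⟨hs1, hs2, hc₀, fun e => ?_⟩
      rw [hbet e]
      refine (hsm3 e).trans (pow_le_pow_of_le_one (by norm_num) (by norm_num) ?_)
      omega
    have hs₀mem : s₀ ∈ range (j / 8 + 1) := by
      rw [Finset.mem_range]; omega
    rw [← Finset.add_sum_erase _ _ hs₀mem, LfN_of_near hnear]
    -- the main term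
    have hmain : ‖em ξ N - gs q₀ a₀ * vv (bet ξ (q₀, a₀)) N‖ ≤ 26 * (1 + D) * δ := by
      rw [em_eq_bet ξ (q₀, a₀)]
      refine hmaj q₀ a₀ (bet ξ (q₀, a₀)) hq₀0 ?_ fun e => ?_
      · have a1 : (q₀ : ℝ) < 2 ^ (s₀ + 1) := by exact_mod_cast hs2
        exact a1.le.trans (hp _ _ (by omega))
      · rw [hbet e]
        have hpos' : (0 : ℝ) < (N : ℝ) ^ ((e : ℕ) + 1) := by positivity
        rw [← le_div_iff₀ hpos']
        exact hβ e
    -- the other terms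
    have hoth : ∀ s ∈ (range (j / 8 + 1)).erase s₀, ‖LfN N s ξ‖ ≤ δ := by
      intro s hs
      have hne : s ≠ s₀ := Finset.ne_of_mem_erase hs
      have hsj : s ≤ j / 8 := by
        have := Finset.mem_range.1 (Finset.mem_of_mem_erase hs)
        omega
      by_cases hex : ∃ p, Near s ξ p
      · obtain ⟨p, hpn⟩ := hex
        rw [LfN_of_near hpn, norm_mul]
        refine (mul_le_of_le_one_left (norm_nonneg _) (norm_gs_le _ _)).trans ?_
        by_contra hcon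
        push Not at hcon
        have hdec := vv_decay hIW (bet ξ p) N hδ0 hδ2 hcon
        rw [hδC] at hdec
        -- then p is close to (q₀, a₀)
        have hclose := eq_of_close hpn.pos hq₀0 hpn.2.2.1 hc₀
          (fun e => round (ξ e - (a₀ e : ℝ) / q₀) - round (ξ e - (p.2 e : ℝ) / p.1)) (fun e => by
            have e1 : (p.2 e : ℝ) / p.1 - (a₀ e : ℝ) / q₀ -
                ((round (ξ e - (a₀ e : ℝ) / q₀) - round (ξ e - (p.2 e : ℝ) / p.1) : ℤ) : ℝ) =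
                bet ξ (q₀, a₀) e - bet ξ p e := by
              simp only [bet, fr]
              push_cast
              ring
            rw [e1]
            have e2 : |bet ξ p e| ≤ (1 / 2) ^ (j - i * C) := by
              have hpos' : (0 : ℝ) < (N : ℝ) ^ ((e : ℕ) + 1) := by positivity
              have := hdec e
              rw [← le_div_iff₀ hpos'] at this
              exact this.trans ((hsm e).trans hsm2)
            have e3 : |bet ξ (q₀, a₀) e| ≤ (1 / 2) ^ (j - i * C) := by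
              rw [hbet e]; exact hsm3 e
            have e4 : |bet ξ (q₀, a₀) e - bet ξ p e| ≤
                (1 / 2) ^ (j - i * C) + (1 / 2) ^ (j - i * C) :=
              (abs_sub _ _).trans (add_le_add e3 e2)
            refine lt_of_le_of_lt e4 ?_
            have hqR : (0 : ℝ) < p.1 := Nat.cast_pos.2 hpn.pos
            have hqR' : (0 : ℝ) < q₀ := Nat.cast_pos.2 hq₀0
            have e5 : (p.1 : ℝ) * q₀ < 2 ^ (s + 1) * 2 ^ (s₀ + 1) := by
              have a1 : (p.1 : ℝ) < 2 ^ (s + 1) := by exact_mod_cast hpn.2.1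
              have a2 : (q₀ : ℝ) < 2 ^ (s₀ + 1) := by exact_mod_cast hs2
              exact mul_lt_mul'' a1 a2 hqR.le hqR'.le
            have e6 : (1 : ℝ) / (2 ^ (s + 1) * 2 ^ (s₀ + 1)) < 1 / (p.1 * q₀) :=
              one_div_lt_one_div_of_lt (mul_pos hqR hqR') e5
            refine lt_of_le_of_lt ?_ e6
            have e7 : ((1 : ℝ) / 2) ^ (j - i * C) + (1 / 2) ^ (j - i * C) =
                (1 / 2) ^ (j - i * C - 1) := by
              have : j - i * C = (j - i * C - 1) + 1 := by omega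
              rw [this, pow_succ]
              simp only [Nat.add_sub_cancel]
              ring
            have e8 : (1 : ℝ) / (2 ^ (s + 1) * 2 ^ (s₀ + 1)) = (1 / 2) ^ (s + 1 + (s₀ + 1)) := by
              rw [← pow_add, one_div_pow]
            rw [e7, e8]
            exact pow_le_pow_of_le_one (by norm_num) (by norm_num) (by omega))
        have hpq : p.1 = q₀ := hclose.1
        apply hne
        have h1 := hpn.1
        have h2 := hpn.2.1
        rw [hpq] at h1 h2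
        rw [hs₀]
        exact (Nat.log_eq_of_pow_le_of_lt_pow h1 h2).symm
      · rw [LfN_of_not hex, norm_zero]
        exact hδ0.le
    have hsum : ‖∑ s ∈ (range (j / 8 + 1)).erase s₀, LfN N s ξ‖ ≤ (j + 1) * δ := by
      refine (norm_sum_le _ _).trans ((Finset.sum_le_sum hoth).trans ?_)
      rw [Finset.sum_const, nsmul_eq_mul]
      refine mul_le_mul_of_nonneg_right ?_ hδ0.le
      refine le_trans ?_ hcard
      have := Finset.card_erase_le (s := range (j / 8 + 1)) (a := s₀)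
      rw [Finset.card_range] at this
      exact_mod_cast this
    have htot : em ξ N - (gs q₀ a₀ * vv (bet ξ (q₀, a₀)) N +
        ∑ s ∈ (range (j / 8 + 1)).erase s₀, LfN N s ξ) =
        (em ξ N - gs q₀ a₀ * vv (bet ξ (q₀, a₀)) N) -
        ∑ s ∈ (range (j / 8 + 1)).erase s₀, LfN N s ξ := by ring
    rw [htot]
    refine (norm_sub_le _ _).trans ((add_le_add hmain hsum).trans ?_)
    have h1 : 26 * (1 + (D : ℝ)) + (j + 1) ≤ (26 * (1 + D) + 30) * (j + 1) := by nlinarith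
    calc 26 * (1 + (D : ℝ)) * δ + (j + 1) * δ = (26 * (1 + D) + (j + 1)) * δ := by ring
      _ ≤ (26 * (1 + D) + 30) * (j + 1) * δ := mul_le_mul_of_nonneg_right h1 hδ0.le
  · -- minor arcs
    have hterm : ∀ s ∈ range (j / 8 + 1), ‖LfN N s ξ‖ ≤ (1 + 26 * (1 + D)) * δ := by
      intro s hs
      have hsj : s ≤ j / 8 := by
        have := Finset.mem_range.1 hs
        omega
      by_cases hex : ∃ p, Near s ξ p
      · obtain ⟨p, hpn⟩ := hex
        rw [LfN_of_near hpn]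
        rcases le_or_gt ‖vv (bet ξ p) N‖ δ with hv | hv
        · rw [norm_mul]
          refine (mul_le_of_le_one_left (norm_nonneg _) (norm_gs_le _ _)).trans (hv.trans ?_)
          nlinarith
        · have hdec := vv_decay hIW (bet ξ p) N hδ0 hδ2 hv
          rw [hδC] at hdec
          have h1 := hmaj p.1 p.2 (bet ξ p) hpn.pos (by
            have a1 : (p.1 : ℝ) < 2 ^ (s + 1) := by exact_mod_cast hpn.2.1
            exact a1.le.trans (hp _ _ (by omega))) hdec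
          rw [← em_eq_bet ξ p] at h1
          have h2 : gs p.1 p.2 * vv (bet ξ p) N = em ξ N -
              (em ξ N - gs p.1 p.2 * vv (bet ξ p) N) := by ring
          rw [h2]
          refine (norm_sub_le _ _).trans ((add_le_add hsmall.le h1).trans (le_of_eq ?_))
          ring
      · rw [LfN_of_not hex, norm_zero]
        positivity
    have hsum : ‖∑ s ∈ range (j / 8 + 1), LfN N s ξ‖ ≤ (j + 1) * ((1 + 26 * (1 + D)) * δ) := by
      refine (norm_sum_le _ _).trans ((Finset.sum_le_sum hterm).trans ?_)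
      rw [Finset.sum_const, nsmul_eq_mul, Finset.card_range]
      exact mul_le_mul_of_nonneg_right hcard (by positivity)
    refine (norm_sub_le _ _).trans ((add_le_add hsmall.le hsum).trans ?_)
    have h1 : 1 + ((j : ℝ) + 1) * (1 + 26 * (1 + D)) ≤ (26 * (1 + D) + 30) * (j + 1) := by nlinarith
    calc δ + (j + 1) * ((1 + 26 * (1 + (D : ℝ))) * δ) =
          (1 + ((j : ℝ) + 1) * (1 + 26 * (1 + D))) * δ := by ring
      _ ≤ (26 * (1 + D) + 30) * (j + 1) * δ := mul_le_mul_of_nonneg_right h1 hδ0.le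

/-- comparison of two proportional scales -/
lemma vv_diffK (hIW : IW D C) (β : Fin D → ℝ) (K : ℕ) (hK : 1 ≤ K) (j : ℕ) :
    ‖vv β (K * 2 ^ j) - vv β (2 ^ j)‖ ≤
      (16 * (K : ℝ) ^ D + 8 * (D + 1)) * phi ((C : ℝ) + 1)⁻¹ (sz β ((2 ^ j : ℕ) : ℝ)) := by
  have hc0 : 0 < ((C : ℝ) + 1)⁻¹ := by positivity
  set c : ℝ := ((C : ℝ) + 1)⁻¹ with hc
  set t : ℝ := sz β ((2 ^ j : ℕ) : ℝ) with ht
  have ht0 : 0 ≤ t := sz_nonneg β (Nat.cast_nonneg _)
  have hD : (0 : ℝ) ≤ D := Nat.cast_nonneg D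
  have hKR : (1 : ℝ) ≤ K := by exact_mod_cast hK
  have hKD : (1 : ℝ) ≤ (K : ℝ) ^ D := one_le_pow₀ hKR
  have ht1 : t ≤ sz β ((K * 2 ^ j : ℕ) : ℝ) := by
    refine sz_mono β (Nat.cast_nonneg _) ?_
    push_cast
    have : (0 : ℝ) < 2 ^ j := by positivity
    nlinarith
  unfold phi
  split_ifs with h
  · have h1 : sz β ((K * 2 ^ j : ℕ) : ℝ) ≤ (K : ℝ) ^ D * t := by
      rw [ht]
      unfold sz
      rw [Finset.mul_sum]
      refine Finset.sum_le_sum fun e _ => ?_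
      push_cast
      rw [mul_pow]
      have h2 : (K : ℝ) ^ ((e : ℕ) + 1) ≤ (K : ℝ) ^ D := pow_le_pow_right₀ hKR (by omega)
      have h3 : 0 ≤ |β e| * ((2 : ℝ) ^ j) ^ ((e : ℕ) + 1) := by positivity
      calc |β e| * ((K : ℝ) ^ ((e : ℕ) + 1) * (2 ^ j) ^ ((e : ℕ) + 1)) =
            (K : ℝ) ^ ((e : ℕ) + 1) * (|β e| * ((2 : ℝ) ^ j) ^ ((e : ℕ) + 1)) := by ring
        _ ≤ (K : ℝ) ^ D * (|β e| * ((2 : ℝ) ^ j) ^ ((e : ℕ) + 1)) :=
            mul_le_mul_of_nonneg_right h2 h3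
    have h2 := vv_near β (K * 2 ^ j)
    have h3 := vv_near β (2 ^ j)
    have h4 : vv β (K * 2 ^ j) - vv β (2 ^ j) = (vv β (K * 2 ^ j) - 1) - (vv β (2 ^ j) - 1) := by
      ring
    rw [h4]
    refine (norm_sub_le _ _).trans ((add_le_add h2 h3).trans ?_)
    have hpi : Real.pi ≤ 4 := Real.pi_le_four
    have hpi0 := Real.pi_pos
    have h5 : 2 * Real.pi * sz β ((K * 2 ^ j : ℕ) : ℝ) ≤ 8 * ((K : ℝ) ^ D * t) := by
      refine mul_le_mul (by linarith) h1 (sz_nonneg β (Nat.cast_nonneg _)) (by norm_num)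
    have h6 : 2 * Real.pi * t ≤ 8 * t := mul_le_mul_of_nonneg_right (by linarith) ht0
    have h7 : t ≤ (K : ℝ) ^ D * t := le_mul_of_one_le_left ht0 hKD
    have h8 : 0 ≤ 8 * ((D : ℝ) + 1) * t := by positivity
    calc 2 * Real.pi * sz β ((K * 2 ^ j : ℕ) : ℝ) + 2 * Real.pi * sz β ((2 ^ j : ℕ) : ℝ) ≤
          8 * ((K : ℝ) ^ D * t) + 8 * t := add_le_add h5 h6
      _ ≤ (16 * (K : ℝ) ^ D + 8 * (D + 1)) * t := by nlinarith
  · have htp : 0 < t := by linarith [not_le.1 h]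
    have h2 := vv_rpow hIW β (K * 2 ^ j) (by linarith)
    have h3 := vv_rpow hIW β (2 ^ j) htp
    have h4 : sz β ((K * 2 ^ j : ℕ) : ℝ) ^ (-c) ≤ t ^ (-c) :=
      Real.rpow_le_rpow_of_nonpos htp ht1 (by linarith)
    refine (norm_sub_le _ _).trans ((add_le_add h2 h3).trans ?_)
    have h5 : 0 ≤ t ^ (-c) := Real.rpow_nonneg ht0 _
    have h6 : 4 * ((D : ℝ) + 1) * sz β ((K * 2 ^ j : ℕ) : ℝ) ^ (-c) ≤ 4 * (D + 1) * t ^ (-c) :=
      mul_le_mul_of_nonneg_left h4 (by positivity)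
    rw [← ht]
    have h7 : 0 ≤ 16 * (K : ℝ) ^ D * t ^ (-c) := by positivity
    nlinarith

/-- square function of the continuous averages -/
lemma vv_sqK (hIW : IW D C) (K : ℕ) (hK : 1 ≤ K) : ∃ A : ℝ, 0 ≤ A ∧ ∀ (β : Fin D → ℝ) (n : ℕ),
    ∑ j ∈ range n, ‖vv β (K * 2 ^ j) - vv β (2 ^ j)‖ ^ 2 ≤ A := by
  have hc0 : 0 < ((C : ℝ) + 1)⁻¹ := by positivity
  have h2c : (2 : ℝ) ^ (-((C : ℝ) + 1)⁻¹) < 1 :=
    Real.rpow_lt_one_of_one_lt_of_neg one_lt_two (neg_lt_zero.2 hc0)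
  have hi : 0 < (1 - (2 : ℝ) ^ (-((C : ℝ) + 1)⁻¹))⁻¹ := inv_pos.2 (by linarith)
  refine ⟨(16 * (K : ℝ) ^ D + 8 * (D + 1)) ^ 2 * (2 + (1 - 2 ^ (-((C : ℝ) + 1)⁻¹))⁻¹),
    by positivity, fun β n => ?_⟩
  have h1 : ∀ j ∈ range n, ‖vv β (K * 2 ^ j) - vv β (2 ^ j)‖ ^ 2 ≤
      (16 * (K : ℝ) ^ D + 8 * (D + 1)) ^ 2 * phi ((C : ℝ) + 1)⁻¹ (sz β ((2 ^ j : ℕ) : ℝ)) := by
    intro j _
    have h2 := pow_le_pow_left₀ (norm_nonneg _) (vv_diffK hIW β K hK j) 2
    refine h2.trans ?_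
    rw [mul_pow]
    refine mul_le_mul_of_nonneg_left ?_ (by positivity)
    have h3 : 0 ≤ phi ((C : ℝ) + 1)⁻¹ (sz β ((2 ^ j : ℕ) : ℝ)) :=
      phi_nonneg (sz_nonneg β (Nat.cast_nonneg _))
    have h4 : phi ((C : ℝ) + 1)⁻¹ (sz β ((2 ^ j : ℕ) : ℝ)) ≤ 1 := phi_le_one hc0
    nlinarith
  refine (Finset.sum_le_sum h1).trans ?_
  rw [← Finset.mul_sum]
  refine mul_le_mul_of_nonneg_left ?_ (by positivity)
  exact sum_phi hc0 (t := fun j => sz β ((2 ^ j : ℕ) : ℝ))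
    (fun j => sz_nonneg β (Nat.cast_nonneg _)) (fun j => sz_two β j) n

end Pool.Agent.Lib.Pf720ae.Poly
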