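import Pool.Agent.Lib.Pf720ae.Osc.TransferG

/-!
# Pointwise convergence along the curve
-/

set_option autoImplicit false
set_option linter.unusedSectionVars false

open Finset ZMod MeasureTheory Filter Topology
open scoped ENNReal NNReal

namespace Pool.Agent.Lib.Pf720ae.Poly

variable {D : ℕ} {X : Type} [MeasurableSpace X] {μ : Measure X}

/-- oscillation inequalities imply almost everywhere convergence -/
theorem ae_cauchy_of_osc {a : ℕ → X → ℂ} (ha : ∀ k, Measurable (a k))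
    (hosc : ∀ ε : ℝ≥0, 0 < ε → ∃ J : ℕ, 0 < J ∧ ∀ σ : ℕ → ℕ, StrictMono σ →
      ∑ i ∈ range J, ∫⁻ x, ((Ico (σ i) (σ (i + 1))).sup fun k => ‖a k x - a (σ i) x‖ₑ ^ 2) ∂μ ≤
        ε * J) : ∀ᵐ x ∂μ, CauchySeq fun k => a k x := by
  set b : ℕ → ℕ → X → ℝ≥0∞ := fun N M x => (Ico N M).sup fun k => ‖a k x - a N x‖ₑ ^ 2 with hb
  have hbm : ∀ N M, Measurable (b N M) := fun N M =>
    measurable_fsup _ fun k => ((ha k).sub (ha N)).enorm.pow_const 2
  have hbmono : ∀ N x, Monotone fun M => b N M x := fun N x M M' h =>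
    Finset.sup_mono (Finset.Ico_subset_Ico_right h)
  set S : ℕ → X → ℝ≥0∞ := fun N x => ⨆ M, b N M x with hS
  have hSm : ∀ N, Measurable (S N) := fun N => Measurable.iSup fun M => hbm N M
  have hSint : ∀ N, ∫⁻ x, S N x ∂μ = ⨆ M, ∫⁻ x, b N M x ∂μ := fun N =>
    lintegral_iSup (fun M => hbm N M) (fun M M' h x => hbmono N x h)
  have hsmall : ∀ η : ℝ≥0, 0 < η → ∃ N, ∫⁻ x, S N x ∂μ ≤ η := by
    intro η hη
    by_contra hcon
    push Not at hcon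
    have h1 : ∀ N, ∃ M, N < M ∧ (η : ℝ≥0∞) < ∫⁻ x, b N M x ∂μ := by
      intro N
      have h2 := hcon N
      rw [hSint N] at h2
      obtain ⟨M, hM⟩ := lt_iSup_iff.1 h2
      refine ⟨max M (N + 1), lt_of_lt_of_le (Nat.lt_succ_self N) (le_max_right _ _),
        lt_of_lt_of_le hM ?_⟩
      exact lintegral_mono fun x => hbmono N x (le_max_left _ _)
    choose M hM1 hM2 using h1
    set σ : ℕ → ℕ := fun i => Nat.rec 0 (fun _ s => M s) i with hσ
    have hσs : ∀ i, σ (i + 1) = M (σ i) := fun i => rfl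
    have hσm : StrictMono σ := strictMono_nat_of_lt_succ fun i => by
      rw [hσs]; exact hM1 _
    obtain ⟨J, hJ, hle⟩ := hosc (η / 2) (by positivity)
    have h2 := hle σ hσm
    have h3 : (η : ℝ≥0∞) * J ≤ ∑ i ∈ range J,
        ∫⁻ x, ((Ico (σ i) (σ (i + 1))).sup fun k => ‖a k x - a (σ i) x‖ₑ ^ 2) ∂μ := by
      have h4 : ∀ i ∈ range J, (η : ℝ≥0∞) ≤
          ∫⁻ x, ((Ico (σ i) (σ (i + 1))).sup fun k => ‖a k x - a (σ i) x‖ₑ ^ 2) ∂μ := by
        intro i _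
        rw [hσs i]
        exact (hM2 (σ i)).le
      have h5 := Finset.sum_le_sum h4
      rw [Finset.sum_const, Finset.card_range, nsmul_eq_mul] at h5
      rw [mul_comm]
      exact h5
    have h4 : (η : ℝ≥0∞) * J ≤ (η / 2 : ℝ≥0) * J := h3.trans h2
    have h5 : (η * J : ℝ≥0) ≤ (η / 2) * J := by exact_mod_cast h4
    have h6 : (0 : ℝ≥0) < J := Nat.cast_pos.2 hJ
    have h7 : η ≤ η / 2 := le_of_mul_le_mul_right h5 h6
    have h8 : η / 2 < η := NNReal.half_lt_self hη.ne'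
    exact absurd h7 (not_le.2 h8)
  have hinf : ∫⁻ x, ⨅ N, S N x ∂μ = 0 := by
    refine le_antisymm (ENNReal.le_of_forall_pos_le_add fun η hη _ => ?_) zero_le
    obtain ⟨N, hN⟩ := hsmall η hη
    rw [zero_add]
    exact (lintegral_mono fun x => iInf_le _ N).trans hN
  rw [lintegral_eq_zero_iff (Measurable.iInf hSm)] at hinf
  filter_upwards [hinf] with x hx
  rw [Metric.cauchySeq_iff']
  intro ε hε
  have h1 : ⨅ N, S N x < (ENNReal.ofReal ε) ^ 2 := by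
    have h2 : (⨅ N, S N x) = 0 := hx
    rw [h2]
    have : 0 < ENNReal.ofReal ε := ENNReal.ofReal_pos.2 hε
    positivity
  obtain ⟨N, hN⟩ := iInf_lt_iff.1 h1
  refine ⟨N, fun n hn => ?_⟩
  have h2 : ‖a n x - a N x‖ₑ ^ 2 ≤ S N x := by
    have h3 : ‖a n x - a N x‖ₑ ^ 2 ≤ b N (n + 1) x :=
      Finset.le_sup (f := fun k => ‖a k x - a N x‖ₑ ^ 2)
        (Finset.mem_Ico.2 ⟨hn, Nat.lt_succ_self n⟩)
    exact h3.trans (le_iSup (fun M => b N M x) (n + 1))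
  have h3 := lt_of_le_of_lt h2 hN
  have h4 : ‖a n x - a N x‖ₑ < ENNReal.ofReal ε := by
    by_contra hcon
    exact absurd h3 (not_lt.2 (pow_le_pow_left' (not_lt.1 hcon) 2))
  rw [dist_eq_norm]
  rw [← ofReal_norm] at h4
  exact (ENNReal.ofReal_lt_ofReal_iff hε).1 h4

/-- comparison of nearby scales -/
lemma Av_near {R : (Fin D → ℕ) → X → X} {f : X → ℂ} {B : ℝ} (hB : ∀ x, ‖f x‖ ≤ B) (x : X)
    {N N' : ℕ} (hN' : 0 < N') (h : N' ≤ N) :
    ‖Av R f x N - Av R f x N'‖ ≤ 2 * B * ((N : ℝ) - N') / N := by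
  have hB0 : 0 ≤ B := (norm_nonneg _).trans (hB x)
  have hN : 0 < N := lt_of_lt_of_le hN' h
  have hNR : (0 : ℝ) < N := Nat.cast_pos.2 hN
  have hNR' : (0 : ℝ) < N' := Nat.cast_pos.2 hN'
  have hle : (N' : ℝ) ≤ N := by exact_mod_cast h
  set u : ℕ → ℂ := fun n => f (R (cur n) x) with hu
  have h1 : Av R f x N - Av R f x N' = (N : ℂ)⁻¹ * ∑ n ∈ Ico N' N, u n -
      (((N : ℂ) - N') / N) * ((N' : ℂ)⁻¹ * ∑ n ∈ range N', u n) := by
    unfold Av
    rw [← Finset.sum_range_add_sum_Ico _ h]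
    have e1 : (N : ℂ) ≠ 0 := Nat.cast_ne_zero.2 hN.ne'
    have e2 : (N' : ℂ) ≠ 0 := Nat.cast_ne_zero.2 hN'.ne'
    simp only [hu]
    field_simp
    ring
  have h2 : ‖(N : ℂ)⁻¹ * ∑ n ∈ Ico N' N, u n‖ ≤ (N : ℝ)⁻¹ * (((N : ℝ) - N') * B) := by
    rw [norm_mul, norm_inv, Complex.norm_natCast]
    refine mul_le_mul_of_nonneg_left ?_ (inv_nonneg.2 hNR.le)
    refine (norm_sum_le _ _).trans ((Finset.sum_le_sum fun n _ => hB _).trans ?_)
    rw [Finset.sum_const, Nat.card_Ico, nsmul_eq_mul, Nat.cast_sub h]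
  have h3 : ‖(N' : ℂ)⁻¹ * ∑ n ∈ range N', u n‖ ≤ B := by
    rw [norm_mul, norm_inv, Complex.norm_natCast, inv_mul_le_iff₀ hNR']
    refine (norm_sum_le _ _).trans ((Finset.sum_le_sum fun n _ => hB _).trans ?_)
    rw [Finset.sum_const, Finset.card_range, nsmul_eq_mul]
  have h4 : ‖((N : ℂ) - N') / N‖ = ((N : ℝ) - N') / N := by
    rw [norm_div, Complex.norm_natCast]
    congr 1
    have : ((N : ℂ) - N') = (((N : ℝ) - N' : ℝ) : ℂ) := by push_cast; rfl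
    rw [this, Complex.norm_real, Real.norm_of_nonneg (by linarith)]
  rw [h1]
  refine (norm_sub_le _ _).trans ?_
  rw [norm_mul (((N : ℂ) - N') / N), h4]
  have h5 : ((N : ℝ) - N') / N * ‖(N' : ℂ)⁻¹ * ∑ n ∈ range N', u n‖ ≤ ((N : ℝ) - N') / N * B :=
    mul_le_mul_of_nonneg_left h3 (div_nonneg (by linarith) hNR.le)
  refine (add_le_add h2 h5).trans (le_of_eq ?_)
  field_simp
  ring

/-- pointwise convergence for bounded square integrable functions -/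
theorem ae_tendsto_bdd {R : (Fin D → ℕ) → X → X} (hRadd : ∀ m n x, R (m + n) x = R m (R n x))
    (hR : ∀ m, MeasurePreserving (R m) μ μ) {f : X → ℂ} (hf : Measurable f) {B : ℝ}
    (hB : ∀ x, ‖f x‖ ≤ B) (hf2 : ∫⁻ x, ‖f x‖ₑ ^ 2 ∂μ ≠ ⊤) :
    ∀ᵐ x ∂μ, ∃ ℓ : ℂ, Tendsto (fun N => Av R f x N) atTop (𝓝 ℓ) := by
  set W : ℝ≥0 := (∫⁻ x, ‖f x‖ₑ ^ 2 ∂μ).toNNReal with hW
  have hWeq : (W : ℝ≥0∞) = ∫⁻ x, ‖f x‖ₑ ^ 2 ∂μ := ENNReal.coe_toNNReal hf2
  have h1 : ∀ᵐ x ∂μ, CauchySeq fun k => Av R f x (2 ^ k) := by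
    refine ae_cauchy_of_osc (a := fun k x => Av R f x (2 ^ k))
      (fun k => measurable_Av (fun m => (hR m).measurable) hf (2 ^ k)) fun ε hε => ?_
    have hε1 : 0 < ε / (W + 1) := by positivity
    obtain ⟨J₀, hJ₀⟩ := osc_action D hε1
    refine ⟨J₀ + 1, Nat.succ_pos _, fun σ hσ => ?_⟩
    have h2 := hJ₀ X μ R hRadd hR f hf σ hσ (J₀ + 1) (Nat.le_succ _)
    refine h2.trans ?_
    rw [← hWeq]
    have h3 : ε / (W + 1) * ((J₀ + 1 : ℕ) : ℝ≥0) * W ≤ ε * ((J₀ + 1 : ℕ) : ℝ≥0) := by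
      have h4 : ε / (W + 1) * W ≤ ε := by
        rw [div_mul_eq_mul_div, div_le_iff₀ (by positivity)]
        exact mul_le_mul_of_nonneg_left (le_add_of_nonneg_right zero_le_one) hε.le
      calc ε / (W + 1) * ((J₀ + 1 : ℕ) : ℝ≥0) * W = ε / (W + 1) * W * ((J₀ + 1 : ℕ) : ℝ≥0) := by ring
        _ ≤ ε * ((J₀ + 1 : ℕ) : ℝ≥0) := mul_le_mul_of_nonneg_right h4 zero_le
    exact_mod_cast h3
  have h2 : ∀ᵐ x ∂μ, ∀ K : ℕ, 1 ≤ K →
      Tendsto (fun k => ‖Av R f x (K * 2 ^ k) - Av R f x (2 ^ k)‖ₑ ^ 2) atTop (𝓝 0) := by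
    rw [ae_all_iff]
    intro K
    by_cases hK : 1 ≤ K
    · obtain ⟨A, hA⟩ := sq_action D K hK
      have h3 := hA X μ R hRadd hR f hf
      have h4 : ∫⁻ x, ∑' k, ‖Av R f x (K * 2 ^ k) - Av R f x (2 ^ k)‖ₑ ^ 2 ∂μ ≠ ⊤ := by
        refine ne_top_of_le_ne_top ?_ h3
        exact ENNReal.mul_ne_top ENNReal.coe_ne_top hf2
      have hm : Measurable fun x => ∑' k, ‖Av R f x (K * 2 ^ k) - Av R f x (2 ^ k)‖ₑ ^ 2 := by
        refine Measurable.ennreal_tsum fun k => ?_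
        exact ((measurable_Av (fun m => (hR m).measurable) hf (K * 2 ^ k)).sub
          (measurable_Av (fun m => (hR m).measurable) hf (2 ^ k))).enorm.pow_const 2
      filter_upwards [ae_lt_top hm h4] with x hx _
      exact ENNReal.tendsto_atTop_zero_of_tsum_ne_top hx.ne
    · exact Eventually.of_forall fun x h => absurd h hK
  filter_upwards [h1, h2] with x hx1 hx2
  obtain ⟨ℓ, hℓ⟩ := cauchySeq_tendsto_of_complete hx1
  refine ⟨ℓ, ?_⟩
  have hKlim : ∀ K : ℕ, 1 ≤ K → Tendsto (fun k => Av R f x (K * 2 ^ k)) atTop (𝓝 ℓ) := by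
    intro K hK
    have h3 : Tendsto (fun k => Av R f x (K * 2 ^ k) - Av R f x (2 ^ k)) atTop (𝓝 0) := by
      rw [Metric.tendsto_atTop]
      intro ε hε
      have h4 : (0 : ℝ≥0∞) < (ENNReal.ofReal ε) ^ 2 := by
        have : 0 < ENNReal.ofReal ε := ENNReal.ofReal_pos.2 hε
        positivity
      obtain ⟨k₀, hk₀⟩ := ((hx2 K hK).eventually (gt_mem_nhds h4)).exists_forall_of_atTop
      refine ⟨k₀, fun k hk => ?_⟩
      have h5 := hk₀ k hk
      have h6 : ‖Av R f x (K * 2 ^ k) - Av R f x (2 ^ k)‖ₑ < ENNReal.ofReal ε := by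
        by_contra hcon
        exact absurd h5 (not_lt.2 (pow_le_pow_left' (not_lt.1 hcon) 2))
      rw [dist_zero_right]
      rw [← ofReal_norm] at h6
      exact (ENNReal.ofReal_lt_ofReal_iff hε).1 h6
    have h4 := h3.add hℓ
    simpa using h4
  rw [Metric.tendsto_atTop]
  intro ε hε
  have hB0 : 0 ≤ B := (norm_nonneg _).trans (hB x)
  -- choice of m
  obtain ⟨m, hm⟩ : ∃ m : ℕ, 2 * B * (1 / 2) ^ m < ε / 2 := by
    have h3 := (tendsto_pow_atTop_nhds_zero_of_lt_one (r := (1 / 2 : ℝ)) (by norm_num)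
      (by norm_num)).const_mul (2 * B)
    rw [mul_zero] at h3
    exact (h3.eventually (gt_mem_nhds (half_pos hε))).exists
  have h3 : ∀ᶠ k in atTop, ∀ K ∈ Ico (2 ^ m) (2 ^ (m + 1)),
      dist (Av R f x (K * 2 ^ k)) ℓ < ε / 2 := by
    rw [Filter.eventually_all_finset]
    intro K hK
    have hK1 : 1 ≤ K := le_trans Nat.one_le_two_pow (Finset.mem_Ico.1 hK).1
    exact (Metric.tendsto_nhds.1 (hKlim K hK1)) (ε / 2) (half_pos hε)
  obtain ⟨k₀, hk₀⟩ := h3.exists_forall_of_atTop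
  refine ⟨2 ^ (m + k₀), fun N hN => ?_⟩
  have hN0 : 0 < N := lt_of_lt_of_le (pow_pos two_pos _) hN
  set k := Nat.log 2 N with hk
  have hk1 : 2 ^ k ≤ N := Nat.pow_log_le_self 2 hN0.ne'
  have hk2 : N < 2 ^ (k + 1) := Nat.lt_pow_succ_log_self one_lt_two N
  have hkm : m + k₀ ≤ k := by
    rw [hk]
    exact Nat.le_log_of_pow_le one_lt_two hN
  obtain ⟨r, hr⟩ := Nat.exists_eq_add_of_le (show m ≤ k by omega)
  have hrk : k₀ ≤ r := by omega
  set K := N / 2 ^ r with hKdef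
  have h2r : 0 < 2 ^ r := pow_pos two_pos r
  have hKr : K * 2 ^ r ≤ N := Nat.div_mul_le_self N (2 ^ r)
  have hKr' : N < K * 2 ^ r + 2 ^ r := by
    have := Nat.lt_div_mul_add h2r (a := N)
    exact this
  have hKlow : 2 ^ m ≤ K := by
    rw [hKdef, Nat.le_div_iff_mul_le h2r, ← pow_add, ← hr]
    exact hk1
  have hKup : K < 2 ^ (m + 1) := by
    rw [hKdef, Nat.div_lt_iff_lt_mul h2r, ← pow_add]
    have : m + 1 + r = k + 1 := by omega
    rw [this]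
    exact hk2
  have h4 := hk₀ r hrk K (Finset.mem_Ico.2 ⟨hKlow, hKup⟩)
  have hK1 : 1 ≤ K := le_trans Nat.one_le_two_pow hKlow
  have h5 := Av_near (R := R) hB x (Nat.mul_pos hK1 h2r) hKr
  have h6 : 2 * B * ((N : ℝ) - ((K * 2 ^ r : ℕ) : ℝ)) / N ≤ 2 * B * (1 / 2) ^ m := by
    have hNR : (0 : ℝ) < N := Nat.cast_pos.2 hN0
    have e1 : (N : ℝ) - ((K * 2 ^ r : ℕ) : ℝ) ≤ 2 ^ r := by
      have : (N : ℝ) < ((K * 2 ^ r : ℕ) : ℝ) + 2 ^ r := by exact_mod_cast hKr'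
      linarith
    have e2 : ((1 : ℝ) / 2) ^ m * N ≥ 2 ^ r := by
      have e3 : (2 : ℝ) ^ k ≤ N := by exact_mod_cast hk1
      calc ((1 : ℝ) / 2) ^ m * N ≥ (1 / 2) ^ m * 2 ^ k :=
            mul_le_mul_of_nonneg_left e3 (by positivity)
        _ = 2 ^ r := by
            rw [hr, pow_add, ← mul_assoc, ← mul_pow]
            norm_num
    rw [div_le_iff₀ hNR, mul_assoc (2 * B)]
    exact mul_le_mul_of_nonneg_left (e1.trans e2) (by positivity)
  have h7 : dist (Av R f x N) ℓ ≤ dist (Av R f x N) (Av R f x (K * 2 ^ r)) +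
      dist (Av R f x (K * 2 ^ r)) ℓ := dist_triangle _ _ _
  have h8 : dist (Av R f x N) (Av R f x (K * 2 ^ r)) = ‖Av R f x N - Av R f x (K * 2 ^ r)‖ :=
    dist_eq_norm _ _
  linarith

end Pool.Agent.Lib.Pf720ae.Poly
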