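import Pool.Agent.Lib.Pf720ae.Poly.MaxFin

/-!
# Oscillation inequality for the rational points of a given height
-/

set_option autoImplicit false
set_option linter.unusedSectionVars false

open Finset ZMod

namespace Pool.Agent.Lib.Pf720ae.Poly

variable {D C L : ℕ} [NeZero L]

/-- selection of a scale -/
lemma sel_op (S : Finset ℕ) (m : ℕ → (Fin D → ZMod L) → ℂ) (F : (Fin D → ZMod L) → ℂ)
    (j : (Fin D → ZMod L) → ℕ) (hj : ∀ x, j x ∈ S) :
    ∑ x, ‖op (m (j x)) F x‖ ^ 2 ≤ ∑ i ∈ S, nn (op (m i) F) := by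
  unfold nn
  rw [Finset.sum_comm]
  refine Finset.sum_le_sum fun x _ => ?_
  exact Finset.single_le_sum (f := fun i => ‖op (m i) F x‖ ^ 2) (fun _ _ => sq_nonneg _) (hj x)

lemma pow_mul_le_of_double {t : ℕ → ℝ} (ht : ∀ j, 2 * t j ≤ t (j + 1)) (a k : ℕ) :
    2 ^ k * t a ≤ t (a + k) := by
  induction k with
  | zero => simp
  | succ k ih =>
    have h1 := ht (a + k)
    rw [← add_assoc, pow_succ]
    linarith

lemma sum_le_of_double {t : ℕ → ℝ} (ht0 : ∀ j, 0 ≤ t j) (ht : ∀ j, 2 * t j ≤ t (j + 1)) (a k : ℕ) :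
    ∑ j ∈ Ico a (a + k), t j ≤ t (a + k) := by
  induction k with
  | zero => simp [ht0]
  | succ k ih =>
    rw [← add_assoc, Finset.sum_Ico_succ_top (by omega)]
    have h1 := ht (a + k)
    linarith

open Classical in
/-- few blocks are in the middle range -/
lemma count_mid {t : ℕ → ℝ} (ht0 : ∀ j, 0 ≤ t j) (ht : ∀ j, 2 * t j ≤ t (j + 1)) {σ : ℕ → ℕ}
    (hσ : StrictMono σ) (T J : ℕ) :
    ((range J).filter fun i => (1 / 2 : ℝ) ^ T < t (σ (i + 1)) ∧ t (σ i) < 2 ^ T).card ≤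
      2 * T + 1 := by
  set S := (range J).filter fun i => (1 / 2 : ℝ) ^ T < t (σ (i + 1)) ∧ t (σ i) < 2 ^ T with hS
  rcases S.eq_empty_or_nonempty with h | h
  · rw [h]; simp
  · set i₁ := S.min' h with hi₁
    have hi₁m : i₁ ∈ S := Finset.min'_mem _ _
    have h1 : S ⊆ Ico i₁ (i₁ + (2 * T + 1)) := by
      intro i hi
      rw [Finset.mem_Ico]
      refine ⟨Finset.min'_le _ _ hi, ?_⟩
      by_contra hcon
      push Not at hcon
      have hm := (Finset.mem_filter.1 hi₁m).2.1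
      have hi2 := (Finset.mem_filter.1 hi).2.2
      have h2 : σ (i₁ + 1) + 2 * T ≤ σ i := by
        have h3 : ∀ k, σ (i₁ + 1) + k ≤ σ (i₁ + 1 + k) := by
          intro k
          induction k with
          | zero => simp
          | succ k ih =>
            have := hσ (show i₁ + 1 + k < i₁ + 1 + (k + 1) by omega)
            omega
        exact (h3 (2 * T)).trans (hσ.monotone (by omega))
      obtain ⟨k, hk⟩ := Nat.exists_eq_add_of_le h2
      have h4 := pow_mul_le_of_double ht (σ (i₁ + 1)) (2 * T + k)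
      have h5 : σ (i₁ + 1) + (2 * T + k) = σ i := by omega
      rw [h5] at h4
      have h6 : (2 : ℝ) ^ T ≤ 2 ^ (2 * T + k) * (1 / 2) ^ T := by
        have h7 : (2 : ℝ) ^ (2 * T + k) = 2 ^ T * 2 ^ k * 2 ^ T := by
          rw [← pow_add, ← pow_add]; congr 1; omega
        rw [h7, mul_assoc, ← mul_pow]
        norm_num
        have : (1 : ℝ) ≤ 2 ^ k := one_le_pow₀ one_le_two
        nlinarith [pow_pos (two_pos : (0 : ℝ) < 2) T]
      have h8 : (2 : ℝ) ^ (2 * T + k) * (1 / 2) ^ T ≤ 2 ^ (2 * T + k) * t (σ (i₁ + 1)) :=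
        mul_le_mul_of_nonneg_left hm.le (by positivity)
      linarith
    have h2 := Finset.card_le_card h1
    rw [Nat.card_Ico] at h2
    omega

open Classical in
/-- relative size of the frequency -/
noncomputable def tz (s : ℕ) (ξ : Fin D → ℝ) (j : ℕ) : ℝ :=
  if h : ∃ p, Near s ξ p then sz (bet ξ h.choose) ((2 ^ j : ℕ) : ℝ) else 0

lemma tz_nonneg (s : ℕ) (ξ : Fin D → ℝ) (j : ℕ) : 0 ≤ tz s ξ j := by
  unfold tz
  split_ifs
  · exact sz_nonneg _ (Nat.cast_nonneg _)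
  · exact le_rfl

lemma tz_two (s : ℕ) (ξ : Fin D → ℝ) (j : ℕ) : 2 * tz s ξ j ≤ tz s ξ (j + 1) := by
  unfold tz
  split_ifs
  · exact sz_two _ j
  · simp

lemma Lf_sub_le (i j s : ℕ) (ξ : Fin D → ℝ) :
    ‖Lf j s ξ - Lf i s ξ‖ ≤ 2 * Real.pi * (tz s ξ j + tz s ξ i) := by
  unfold Lf tz
  split_ifs with h
  · set p := h.choose
    rw [← mul_sub, norm_mul]
    refine (mul_le_of_le_one_left (norm_nonneg _) (norm_gs_le _ _)).trans ?_
    have h1 := vv_near (bet ξ p) (2 ^ j)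
    have h2 := vv_near (bet ξ p) (2 ^ i)
    have h3 : vv (bet ξ p) (2 ^ j) - vv (bet ξ p) (2 ^ i) =
        (vv (bet ξ p) (2 ^ j) - 1) - (vv (bet ξ p) (2 ^ i) - 1) := by ring
    rw [h3]
    refine (norm_sub_le _ _).trans ((add_le_add h1 h2).trans (le_of_eq ?_))
    ring
  · simp

lemma Lf_high (hIW : IW D C) (j s : ℕ) (ξ : Fin D → ℝ) (h : 0 < tz s ξ j) :
    ‖Lf j s ξ‖ ≤ 4 * (D + 1) * tz s ξ j ^ (-((C : ℝ) + 1)⁻¹) := by
  unfold tz at h ⊢
  unfold Lf
  split_ifs with h'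
  · rw [dif_pos h'] at h
    rw [norm_mul]
    refine (mul_le_of_le_one_left (norm_nonneg _) (norm_gs_le _ _)).trans ?_
    exact vv_rpow hIW _ _ h
  · rw [dif_neg h'] at h
    exact absurd h (lt_irrefl 0)

lemma norm_add3_sq (a b c : ℂ) : ‖a + b + c‖ ^ 2 ≤ 3 * (‖a‖ ^ 2 + ‖b‖ ^ 2 + ‖c‖ ^ 2) := by
  have h1 : ‖a + b + c‖ ≤ ‖a‖ + ‖b‖ + ‖c‖ := norm_add₃_le
  have h2 : ‖a + b + c‖ ^ 2 ≤ (‖a‖ + ‖b‖ + ‖c‖) ^ 2 := pow_le_pow_left₀ (norm_nonneg _) h1 2
  nlinarith [sq_nonneg (‖a‖ - ‖b‖), sq_nonneg (‖b‖ - ‖c‖), sq_nonneg (‖a‖ - ‖c‖)]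

lemma norm_sub_sq_le (a b : ℂ) : ‖a - b‖ ^ 2 ≤ 2 * ‖a‖ ^ 2 + 2 * ‖b‖ ^ 2 := by
  have h1 := norm_sub_le a b
  have h2 : ‖a - b‖ ^ 2 ≤ (‖a‖ + ‖b‖) ^ 2 := pow_le_pow_left₀ (norm_nonneg _) h1 2
  nlinarith [sq_nonneg (‖a‖ - ‖b‖)]

open Classical in
/-- oscillation inequality at a fixed height -/
theorem osc_level (hIW : IW D C) : ∃ A ρ : ℝ, 0 ≤ A ∧ 0 < ρ ∧ ρ < 1 ∧ ∀ (L : ℕ) [NeZero L] (s : ℕ)
    (F : (Fin D → ZMod L) → ℂ) (σ : ℕ → ℕ) (_ : StrictMono σ) (j : ℕ → (Fin D → ZMod L) → ℕ)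
    (_ : ∀ i x, σ i ≤ j i x ∧ j i x < σ (i + 1)) (T J : ℕ),
    ∑ i ∈ range J, ∑ x, ‖op (fun a => Lf (j i x) s (fq a)) F x -
      op (fun a => Lf (σ i) s (fq a)) F x‖ ^ 2 ≤
      (A * ((s : ℝ) + 1) ^ 2 * (2 * T + 1) + A * ρ ^ T * J) * nn F := by
  obtain ⟨A₁, hA₁, hlev⟩ := level hIW
  have hc0 : 0 < ((C : ℝ) + 1)⁻¹ := by positivity
  have hc1 : ((C : ℝ) + 1)⁻¹ ≤ 1 := inv_le_one_of_one_le₀ (by linarith [Nat.cast_nonneg (α := ℝ) C])
  set c : ℝ := ((C : ℝ) + 1)⁻¹ with hc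
  set ρ : ℝ := (2 : ℝ) ^ (-c) with hρ
  have hρ0 : 0 < ρ := Real.rpow_pos_of_pos two_pos _
  have hρ1 : ρ < 1 := Real.rpow_lt_one_of_one_lt_of_neg one_lt_two (neg_lt_zero.2 hc0)
  have hρ2 : 1 / 2 ≤ ρ := by
    rw [hρ]
    calc (1 / 2 : ℝ) = 2 ^ (-1 : ℝ) := by rw [Real.rpow_neg_one]; norm_num
      _ ≤ 2 ^ (-c) := Real.rpow_le_rpow_of_exponent_le one_le_two (by linarith)
  have h1ρ : 0 < 1 - ρ := by linarith
  set K : ℝ := (4 * (D + 1)) ^ 2 * (1 - ρ)⁻¹ with hK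
  have hK0 : 0 ≤ K := by positivity
  refine ⟨12 * A₁ + 3 * (256 + 4 * K), ρ, by positivity, hρ0, hρ1, ?_⟩
  intro L _ s F σ hσ j hj T J
  have hnn := nn_nonneg F
  -- the three ranges
  set lo : ℕ → (Fin D → ZMod L) → Prop := fun i a => tz s (fq a) (σ (i + 1)) ≤ (1 / 2) ^ T with hlo
  set hi : ℕ → (Fin D → ZMod L) → Prop := fun i a => ¬ lo i a ∧ (2 : ℝ) ^ T ≤ tz s (fq a) (σ i)
    with hhi
  set eL : ℕ → (Fin D → ZMod L) → ℂ := fun i a => if lo i a then 1 else 0 with heL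
  set eH : ℕ → (Fin D → ZMod L) → ℂ := fun i a => if hi i a then 1 else 0 with heH
  set eM : ℕ → (Fin D → ZMod L) → ℂ := fun i a => if lo i a ∨ hi i a then 0 else 1 with heM
  have hsum : ∀ i a, eL i a + eH i a + eM i a = 1 := by
    intro i a
    by_cases h1 : lo i a
    · have h2 : ¬ hi i a := fun h => h.1 h1
      simp [heL, heH, heM, h1, h2]
    · by_cases h2 : hi i a
      · simp [heL, heH, heM, h1, h2]
      · simp [heL, heH, heM, h1, h2]
  have hpt : ∀ i x, ‖op (fun a => Lf (j i x) s (fq a)) F x - op (fun a => Lf (σ i) s (fq a)) F x‖ ^ 2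
      ≤ 3 * (‖op (fun a => (Lf (j i x) s (fq a) - Lf (σ i) s (fq a)) * eL i a) F x‖ ^ 2 +
        (2 * ‖op (fun a => Lf (j i x) s (fq a) * eH i a) F x‖ ^ 2 +
          2 * ‖op (fun a => Lf (σ i) s (fq a) * eH i a) F x‖ ^ 2) +
        (2 * ‖op (fun a => Lf (j i x) s (fq a)) (op (eM i) F) x‖ ^ 2 +
          2 * ‖op (fun a => Lf (σ i) s (fq a)) (op (eM i) F) x‖ ^ 2)) := by
    intro i x
    have h1 : op (fun a => Lf (j i x) s (fq a)) F x - op (fun a => Lf (σ i) s (fq a)) F x =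
        op (fun a => (Lf (j i x) s (fq a) - Lf (σ i) s (fq a)) * eL i a) F x +
        (op (fun a => Lf (j i x) s (fq a) * eH i a) F x -
          op (fun a => Lf (σ i) s (fq a) * eH i a) F x) +
        (op (fun a => Lf (j i x) s (fq a)) (op (eM i) F) x -
          op (fun a => Lf (σ i) s (fq a)) (op (eM i) F) x) := by
      rw [op_op, op_op, ← op_sub, ← op_sub, ← op_sub, ← op_add, ← op_add]
      congr 1
      funext a
      have h2 := hsum i a
      calc Lf (j i x) s (fq a) - Lf (σ i) s (fq a) =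
            (Lf (j i x) s (fq a) - Lf (σ i) s (fq a)) * (eL i a + eH i a + eM i a) := by
              rw [h2, mul_one]
        _ = _ := by ring
    rw [h1]
    refine (norm_add3_sq _ _ _).trans ?_
    have h2 := norm_sub_sq_le (op (fun a => Lf (j i x) s (fq a) * eH i a) F x)
      (op (fun a => Lf (σ i) s (fq a) * eH i a) F x)
    have h3 := norm_sub_sq_le (op (fun a => Lf (j i x) s (fq a)) (op (eM i) F) x)
      (op (fun a => Lf (σ i) s (fq a)) (op (eM i) F) x)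
    linarith
  -- low frequencies
  have hlow : ∀ i, ∑ x, ‖op (fun a => (Lf (j i x) s (fq a) - Lf (σ i) s (fq a)) * eL i a) F x‖ ^ 2 ≤
      256 * ρ ^ T * nn F := by
    intro i
    have h1 := sel_op (Ico (σ i) (σ (i + 1)))
      (fun k a => (Lf k s (fq a) - Lf (σ i) s (fq a)) * eL i a) F (j i)
      (fun x => Finset.mem_Ico.2 (hj i x))
    refine h1.trans (sum_nn_op_le _ _ (fun a => ?_) F)
    by_cases hl : lo i a
    · have hle : ∀ k ∈ Ico (σ i) (σ (i + 1)),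
          ‖(Lf k s (fq a) - Lf (σ i) s (fq a)) * eL i a‖ ^ 2 ≤ 256 * (tz s (fq a) k * 1) := by
        intro k hk
        rw [Finset.mem_Ico] at hk
        have h2 := Lf_sub_le (σ i) k s (fq a)
        have h3 : tz s (fq a) (σ i) ≤ tz s (fq a) k := by
          obtain ⟨r, hr⟩ := Nat.exists_eq_add_of_le hk.1
          have h4 := pow_mul_le_of_double (tz_two s (fq a)) (σ i) r
          rw [← hr] at h4
          have h5 : (1 : ℝ) ≤ 2 ^ r := one_le_pow₀ one_le_two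
          nlinarith [tz_nonneg s (fq a) (σ i)]
        have h4 : tz s (fq a) k ≤ 1 := by
          obtain ⟨r, hr⟩ := Nat.exists_eq_add_of_le hk.2.le
          have h4 := pow_mul_le_of_double (tz_two s (fq a)) k r
          rw [← hr] at h4
          have h5 : (1 : ℝ) ≤ 2 ^ r := one_le_pow₀ one_le_two
          have h6 : tz s (fq a) (σ (i + 1)) ≤ 1 :=
            le_trans hl (pow_le_one₀ (by norm_num) (by norm_num))
          nlinarith [tz_nonneg s (fq a) k]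
        have hpi : Real.pi ≤ 4 := Real.pi_le_four
        have hpi0 := Real.pi_pos
        have h5 : ‖(Lf k s (fq a) - Lf (σ i) s (fq a)) * eL i a‖ ≤ 16 * tz s (fq a) k := by
          rw [norm_mul]
          have h6 : ‖eL i a‖ = 1 := by simp [heL, hl]
          rw [h6, mul_one]
          refine h2.trans ?_
          have h7 := tz_nonneg s (fq a) k
          have h8 := tz_nonneg s (fq a) (σ i)
          nlinarith
        have h6 : ‖(Lf k s (fq a) - Lf (σ i) s (fq a)) * eL i a‖ ^ 2 ≤ (16 * tz s (fq a) k) ^ 2 :=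
          pow_le_pow_left₀ (norm_nonneg _) h5 2
        have h7 := tz_nonneg s (fq a) k
        nlinarith
      refine (Finset.sum_le_sum hle).trans ?_
      rw [← Finset.mul_sum]
      simp only [mul_one]
      have h2 : ∑ k ∈ Ico (σ i) (σ (i + 1)), tz s (fq a) k ≤ tz s (fq a) (σ (i + 1)) := by
        obtain ⟨r, hr⟩ := Nat.exists_eq_add_of_le (hσ (Nat.lt_succ_self i)).le
        rw [Nat.succ_eq_add_one] at hr
        rw [hr]
        exact sum_le_of_double (tz_nonneg s (fq a)) (tz_two s (fq a)) _ _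
      have h3 : ((1 : ℝ) / 2) ^ T ≤ ρ ^ T := pow_le_pow_left₀ (by norm_num) hρ2 T
      have h4 : tz s (fq a) (σ (i + 1)) ≤ (1 / 2) ^ T := hl
      linarith
    · have hz : ∀ k ∈ Ico (σ i) (σ (i + 1)),
          ‖(Lf k s (fq a) - Lf (σ i) s (fq a)) * eL i a‖ ^ 2 = 0 := by
        intro k _
        have h6 : eL i a = 0 := by simp [heL, hl]
        rw [h6]; simp
      rw [Finset.sum_eq_zero hz]
      positivity
  -- high frequencies
  have hhig : ∀ i, ∀ N : ℕ, ∀ a, ∑ k ∈ Ico (σ i) (σ i + N), ‖Lf k s (fq a) * eH i a‖ ^ 2 ≤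
      K * ρ ^ T := by
    intro i N a
    by_cases hh : hi i a
    · have h1 : ∀ k ∈ range N, ‖Lf (σ i + k) s (fq a) * eH i a‖ ^ 2 ≤
          (4 * (D + 1)) ^ 2 * (ρ ^ T * ρ ^ k) := by
        intro k _
        have h2 := pow_mul_le_of_double (tz_two s (fq a)) (σ i) k
        have h3 : (2 : ℝ) ^ (k + T) ≤ tz s (fq a) (σ i + k) := by
          rw [pow_add]
          exact (mul_le_mul_of_nonneg_left hh.2 (by positivity)).trans h2
        have h4 : 0 < tz s (fq a) (σ i + k) := lt_of_lt_of_le (by positivity) h3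
        have h5 := Lf_high hIW (σ i + k) s (fq a) h4
        have h6 : tz s (fq a) (σ i + k) ^ (-c) ≤ ρ ^ (k + T) := by
          have h7 : tz s (fq a) (σ i + k) ^ (-c) ≤ ((2 : ℝ) ^ (k + T)) ^ (-c) :=
            Real.rpow_le_rpow_of_nonpos (by positivity) h3 (by linarith)
          refine h7.trans (le_of_eq ?_)
          rw [hρ, ← Real.rpow_natCast, ← Real.rpow_mul two_pos.le, ← Real.rpow_natCast,
            ← Real.rpow_mul two_pos.le]
          congr 1
          ring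
        have h7 : ‖Lf (σ i + k) s (fq a) * eH i a‖ ≤ 4 * (D + 1) * ρ ^ (k + T) := by
          rw [norm_mul]
          have h8 : ‖eH i a‖ = 1 := by simp [heH, hh]
          rw [h8, mul_one]
          exact h5.trans (mul_le_mul_of_nonneg_left h6 (by positivity))
        have h8 : (ρ ^ (k + T)) ^ 2 ≤ ρ ^ T * ρ ^ k := by
          rw [← pow_add, add_comm T k]
          have h9 : ρ ^ (k + T) ≤ 1 := pow_le_one₀ hρ0.le hρ1.le
          have h10 : 0 ≤ ρ ^ (k + T) := by positivity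
          nlinarith
        calc ‖Lf (σ i + k) s (fq a) * eH i a‖ ^ 2 ≤ (4 * (D + 1) * ρ ^ (k + T)) ^ 2 :=
              pow_le_pow_left₀ (norm_nonneg _) h7 2
          _ = (4 * (D + 1)) ^ 2 * (ρ ^ (k + T)) ^ 2 := by ring
          _ ≤ (4 * (D + 1)) ^ 2 * (ρ ^ T * ρ ^ k) := mul_le_mul_of_nonneg_left h8 (by positivity)
      rw [Finset.sum_Ico_eq_sum_range, Nat.add_sub_cancel_left]
      refine (Finset.sum_le_sum h1).trans ?_
      rw [← Finset.mul_sum, ← Finset.mul_sum]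
      have h2 : ∑ k ∈ range N, ρ ^ k ≤ (1 - ρ)⁻¹ := by
        have h3 := (summable_geometric_of_lt_one hρ0.le hρ1).sum_le_tsum (range N)
          (fun k _ => by positivity)
        rwa [tsum_geometric_of_lt_one hρ0.le hρ1] at h3
      calc (4 * ((D : ℝ) + 1)) ^ 2 * (ρ ^ T * ∑ k ∈ range N, ρ ^ k) ≤
            (4 * (D + 1)) ^ 2 * (ρ ^ T * (1 - ρ)⁻¹) := by gcongr
        _ = K * ρ ^ T := by rw [hK]; ring
    · have hz : ∀ k ∈ Ico (σ i) (σ i + N), ‖Lf k s (fq a) * eH i a‖ ^ 2 = 0 := by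
        intro k _
        have h6 : eH i a = 0 := by simp [heH, hh]
        rw [h6]; simp
      rw [Finset.sum_eq_zero hz]
      positivity
  have hhigh1 : ∀ i, ∑ x, ‖op (fun a => Lf (j i x) s (fq a) * eH i a) F x‖ ^ 2 ≤
      K * ρ ^ T * nn F := by
    intro i
    have h1 := sel_op (Ico (σ i) (σ (i + 1))) (fun k a => Lf k s (fq a) * eH i a) F (j i)
      (fun x => Finset.mem_Ico.2 (hj i x))
    refine h1.trans (sum_nn_op_le _ _ (fun a => ?_) F)
    obtain ⟨r, hr⟩ := Nat.exists_eq_add_of_le (hσ (Nat.lt_succ_self i)).le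
    rw [Nat.succ_eq_add_one] at hr
    rw [hr]
    exact hhig i r a
  have hhigh2 : ∀ i, ∑ x, ‖op (fun a => Lf (σ i) s (fq a) * eH i a) F x‖ ^ 2 ≤
      K * ρ ^ T * nn F := by
    intro i
    have h1 := sel_op (Ico (σ i) (σ i + 1)) (fun k a => Lf k s (fq a) * eH i a) F (fun _ => σ i)
      (fun x => Finset.mem_Ico.2 ⟨le_rfl, Nat.lt_succ_self _⟩)
    exact h1.trans (sum_nn_op_le _ _ (fun a => hhig i 1 a) F)
  -- middle frequencies
  have hmid1 : ∀ i, ∑ x, (2 * ‖op (fun a => Lf (j i x) s (fq a)) (op (eM i) F) x‖ ^ 2 +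
          2 * ‖op (fun a => Lf (σ i) s (fq a)) (op (eM i) F) x‖ ^ 2) ≤
      4 * A₁ * ((s : ℝ) + 1) ^ 2 * nn (op (eM i) F) := by
    intro i
    rw [Finset.sum_add_distrib, ← Finset.mul_sum, ← Finset.mul_sum]
    have h1 := hlev L s (op (eM i) F) (j i)
    have h2 := hlev L s (op (eM i) F) (fun _ => σ i)
    have h3 : gm C s ^ 2 ≤ 1 := pow_le_one₀ (gm_nonneg C s) (by
      unfold gm; exact pow_le_one₀ (by norm_num) (by norm_num))
    have h4 : A₁ * ((s : ℝ) + 1) ^ 2 * gm C s ^ 2 * nn (op (eM i) F) ≤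
        A₁ * ((s : ℝ) + 1) ^ 2 * 1 * nn (op (eM i) F) := by
      have := nn_nonneg (op (eM i) F)
      gcongr
    linarith
  have hmid2 : ∑ i ∈ range J, nn (op (eM i) F) ≤ (2 * T + 1) * nn F := by
    refine sum_nn_op_le (range J) eM (fun a => ?_) F
    have h1 : ∀ i ∈ range J, ‖eM i a‖ ^ 2 =
        if (1 / 2 : ℝ) ^ T < tz s (fq a) (σ (i + 1)) ∧ tz s (fq a) (σ i) < 2 ^ T then 1 else 0 := by
      intro i _
      by_cases h1 : lo i a
      · have h2 : ¬ ((1 / 2 : ℝ) ^ T < tz s (fq a) (σ (i + 1)) ∧ tz s (fq a) (σ i) < 2 ^ T) :=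
          fun h => absurd h.1 (not_lt.2 h1)
        rw [if_neg h2]
        simp [heM, h1]
      · by_cases h2 : hi i a
        · have h3 : ¬ ((1 / 2 : ℝ) ^ T < tz s (fq a) (σ (i + 1)) ∧ tz s (fq a) (σ i) < 2 ^ T) :=
            fun h => absurd h.2 (not_lt.2 h2.2)
          rw [if_neg h3]
          simp [heM, h2]
        · have h3 : (1 / 2 : ℝ) ^ T < tz s (fq a) (σ (i + 1)) ∧ tz s (fq a) (σ i) < 2 ^ T := by
            refine ⟨not_le.1 h1, not_le.1 fun h4 => h2 ⟨h1, h4⟩⟩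
          rw [if_pos h3]
          simp [heM, h1, h2]
    rw [Finset.sum_congr rfl h1, Finset.sum_ite, Finset.sum_const_zero, add_zero,
      Finset.sum_const, nsmul_eq_mul, mul_one]
    have h2 := count_mid (tz_nonneg s (fq a)) (tz_two s (fq a)) hσ T J
    exact_mod_cast h2
  -- assembly
  have hone : ∀ i ∈ range J, ∑ x, ‖op (fun a => Lf (j i x) s (fq a)) F x -
      op (fun a => Lf (σ i) s (fq a)) F x‖ ^ 2 ≤
      3 * (256 + 4 * K) * ρ ^ T * nn F + 12 * A₁ * ((s : ℝ) + 1) ^ 2 * nn (op (eM i) F) := by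
    intro i _
    refine (Finset.sum_le_sum fun x _ => hpt i x).trans ?_
    rw [← Finset.mul_sum, Finset.sum_add_distrib, Finset.sum_add_distrib, Finset.sum_add_distrib,
      ← Finset.mul_sum, ← Finset.mul_sum]
    have h1 := hlow i
    have h2 := hhigh1 i
    have h3 := hhigh2 i
    have h4 := hmid1 i
    linarith
  refine (Finset.sum_le_sum hone).trans ?_
  rw [Finset.sum_add_distrib, Finset.sum_const, Finset.card_range, nsmul_eq_mul, ← Finset.mul_sum]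
  have h1 : 12 * A₁ * ((s : ℝ) + 1) ^ 2 * ∑ i ∈ range J, nn (op (eM i) F) ≤
      12 * A₁ * ((s : ℝ) + 1) ^ 2 * ((2 * T + 1) * nn F) := by gcongr
  have h2 : 12 * A₁ * ((s : ℝ) + 1) ^ 2 * ((2 * T + 1) * nn F) ≤
      (12 * A₁ + 3 * (256 + 4 * K)) * ((s : ℝ) + 1) ^ 2 * ((2 * T + 1) * nn F) := by
    gcongr
    linarith
  have h3 : (J : ℝ) * (3 * (256 + 4 * K) * ρ ^ T * nn F) ≤
      (J : ℝ) * ((12 * A₁ + 3 * (256 + 4 * K)) * ρ ^ T * nn F) := by
    gcongr
    linarith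
  calc (J : ℝ) * (3 * (256 + 4 * K) * ρ ^ T * nn F) +
        12 * A₁ * ((s : ℝ) + 1) ^ 2 * ∑ i ∈ range J, nn (op (eM i) F) ≤
      (J : ℝ) * ((12 * A₁ + 3 * (256 + 4 * K)) * ρ ^ T * nn F) +
        (12 * A₁ + 3 * (256 + 4 * K)) * ((s : ℝ) + 1) ^ 2 * ((2 * T + 1) * nn F) :=
        add_le_add h3 (h1.trans h2)
    _ = _ := by ring

end Pool.Agent.Lib.Pf720ae.Poly
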