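import Pool.Agent.Lib.Pf720ae.Osc.Conv
import Pool.Agent.Lib.Pf720ae.Poly.MaxBd

/-!
# Pointwise convergence of unrestricted multi-parameter averages, by iteration
-/

set_option autoImplicit false
set_option linter.unusedSectionVars false

open MeasureTheory Filter Topology Finset
open scoped ENNReal NNReal

namespace Pool.Agent.Lib.Pf720ae

variable {κ : Type} [Fintype κ] [DecidableEq κ]
variable {X : Type} [MeasurableSpace X] {μ : Measure X}

/-- partial box averages -/
noncomputable def Ab (S : (κ → ℕ) → X → X) (s : Finset κ) (f : X → ℝ) (M : κ → ℕ) (x : X) : ℝ :=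
  (∏ l ∈ s, (M l : ℝ))⁻¹ * ∑ m ∈ boxs s M, f (S m x)

lemma card_boxs (s : Finset κ) (M : κ → ℕ) : (boxs s M).card = ∏ l ∈ s, M l := by
  unfold boxs
  rw [Fintype.card_piFinset]
  have h1 : ∀ l, (if l ∈ s then range (M l) else ({0} : Finset ℕ)).card = if l ∈ s then M l else 1 := by
    intro l
    split_ifs <;> simp
  simp only [h1]
  rw [Finset.prod_ite_mem, Finset.univ_inter]

lemma abs_Ab_le {S : (κ → ℕ) → X → X} (s : Finset κ) {f : X → ℝ} (hf : ∀ x, |f x| ≤ 1)
    (M : κ → ℕ) (x : X) : |Ab S s f M x| ≤ 1 := by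
  unfold Ab
  rw [abs_mul, abs_inv, abs_of_nonneg (Finset.prod_nonneg fun l _ => Nat.cast_nonneg (M l))]
  have h1 : |∑ m ∈ boxs s M, f (S m x)| ≤ ∏ l ∈ s, (M l : ℝ) := by
    refine (Finset.abs_sum_le_sum_abs _ _).trans ((Finset.sum_le_sum fun m _ => hf _).trans ?_)
    rw [Finset.sum_const, card_boxs, nsmul_eq_mul, mul_one]
    push_cast
    exact le_rfl
  have h0 : (0 : ℝ) ≤ ∏ l ∈ s, (M l : ℝ) := Finset.prod_nonneg fun l _ => Nat.cast_nonneg (M l)
  calc (∏ l ∈ s, (M l : ℝ))⁻¹ * |∑ m ∈ boxs s M, f (S m x)| ≤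
        (∏ l ∈ s, (M l : ℝ))⁻¹ * ∏ l ∈ s, (M l : ℝ) := mul_le_mul_of_nonneg_left h1 (inv_nonneg.2 h0)
    _ ≤ 1 := inv_mul_le_one

lemma measurable_Ab {S : (κ → ℕ) → X → X} (hS : ∀ m, Measurable (S m)) (s : Finset κ) {f : X → ℝ}
    (hf : Measurable f) (M : κ → ℕ) : Measurable (Ab S s f M) :=
  (Finset.measurable_fun_sum _ fun _ _ => hf.comp (hS _)).const_mul _

lemma Ab_insert {S : (κ → ℕ) → X → X}
    (hsep : ∀ (a : κ) (m : κ → ℕ) (t : ℕ), m a = 0 → ∀ x,
      S (m + Pi.single a t) x = S m (S (Pi.single a t) x)) {s : Finset κ} {a : κ} (ha : a ∉ s)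
    (f : X → ℝ) (M : κ → ℕ) (x : X) : Ab S (insert a s) f M x =
      (M a : ℝ)⁻¹ * ∑ t ∈ range (M a), Ab S s f M (S (Pi.single a t) x) := by
  unfold Ab
  rw [Finset.prod_insert ha, mul_inv, sum_boxs_insert ha, mul_assoc, Finset.mul_sum]
  congr 1
  refine Finset.sum_congr rfl fun t _ => ?_
  congr 1
  refine Finset.sum_congr rfl fun m hm => ?_
  rw [hsep a m t]
  have := mem_boxs.1 hm a
  rwa [if_neg ha] at this

/-- iteration over the coordinates -/
theorem cvg_of_coord [IsFiniteMeasure μ] {S : (κ → ℕ) → X → X} (h0 : ∀ x, S 0 x = x)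
    (hS : ∀ m, MeasurePreserving (S m) μ μ)
    (hsep : ∀ (a : κ) (m : κ → ℕ) (t : ℕ), m a = 0 → ∀ x,
      S (m + Pi.single a t) x = S m (S (Pi.single a t) x))
    (h1 : ∀ (a : κ) (f : X → ℝ), Measurable f → (∀ x, |f x| ≤ 1) → ∀ᵐ x ∂μ, ∃ L : ℝ,
      Tendsto (fun N : ℕ => (N : ℝ)⁻¹ * ∑ t ∈ range N, f (S (Pi.single a t) x)) atTop (𝓝 L))
    {f : X → ℝ} (hf : Measurable f) (hf1 : ∀ x, |f x| ≤ 1) :
    ∀ᵐ x ∂μ, Cvg fun m => f (S m x) := by
  have hSm : ∀ m, Measurable (S m) := fun m => (hS m).measurable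
  have hmain : ∀ s : Finset κ, ∀ f : X → ℝ, Measurable f → (∀ x, |f x| ≤ 1) →
      ∀ᵐ x ∂μ, ∃ L : ℝ, Tendsto (fun M : κ → ℕ => Ab S s f M x) atTop (𝓝 L) := by
    intro s
    induction s using Finset.induction_on with
    | empty =>
      intro f _ _
      refine Eventually.of_forall fun x => ⟨f x, ?_⟩
      have h2 : ∀ M : κ → ℕ, boxs (∅ : Finset κ) M = {0} := by
        intro M
        ext m
        rw [mem_boxs]
        simp [funext_iff]
      simp [Ab, h2, h0]
    | insert a s ha ih =>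
      intro f hf hf1
      -- the limit function
      set dg : ℕ → κ → ℕ := fun n _ => n with hdg
      have hdgt : Tendsto dg atTop atTop :=
        tendsto_atTop.2 fun b => (eventually_ge_atTop (∑ l, b l)).mono fun n hn l =>
          (Finset.single_le_sum (f := fun l => b l) (fun _ _ => Nat.zero_le _)
            (Finset.mem_univ l)).trans hn
      set E : X → ℝ := fun y => limsup (fun n => Ab S s f (dg n) y) atTop with hE
      have hEm : Measurable E := Measurable.limsup fun n => measurable_Ab hSm s hf (dg n)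
      have hAb1 : ∀ M y, |Ab S s f M y| ≤ 1 := abs_Ab_le s hf1
      have hE1 : ∀ y, |E y| ≤ 1 := by
        intro y
        have hbu : IsBoundedUnder (· ≤ ·) atTop (fun n => Ab S s f (dg n) y) :=
          ⟨1, eventually_map.2 (Eventually.of_forall fun n => (abs_le.1 (hAb1 (dg n) y)).2)⟩
        have hbl : IsBoundedUnder (· ≥ ·) atTop (fun n => Ab S s f (dg n) y) :=
          ⟨-1, eventually_map.2 (Eventually.of_forall fun n => (abs_le.1 (hAb1 (dg n) y)).1)⟩
        rw [abs_le]
        constructor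
        · exact le_limsup_of_frequently_le
            (Eventually.frequently (Eventually.of_forall fun n => (abs_le.1 (hAb1 (dg n) y)).1)) hbu
        · exact limsup_le_of_le hbl.isCoboundedUnder_le
            (Eventually.of_forall fun n => (abs_le.1 (hAb1 (dg n) y)).2)
      have hElim : ∀ᵐ y ∂μ, Tendsto (fun M : κ → ℕ => Ab S s f M y) atTop (𝓝 (E y)) := by
        filter_upwards [ih f hf hf1] with y hy
        obtain ⟨L, hL⟩ := hy
        have h2 : E y = L := (hL.comp hdgt).limsup_eq
        rwa [h2]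
      -- the deviation
      set g : ℕ → X → ℝ := fun N y => ⨆ M : {M : κ → ℕ // ∀ l, N ≤ M l}, |Ab S s f M.1 y - E y|
        with hg
      have hdev : ∀ M y, |Ab S s f M y - E y| ≤ 2 := by
        intro M y
        have h2 := abs_sub (Ab S s f M y) (E y)
        have h3 := hAb1 M y
        have h4 := hE1 y
        linarith
      have hbdd : ∀ N y, BddAbove (Set.range fun M : {M : κ → ℕ // ∀ l, N ≤ M l} =>
          |Ab S s f M.1 y - E y|) := fun N y => ⟨2, by rintro _ ⟨M, rfl⟩; exact hdev _ _⟩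
      have hne : ∀ N, Nonempty {M : κ → ℕ // ∀ l, N ≤ M l} := fun N => ⟨⟨fun _ => N, fun _ => le_rfl⟩⟩
      have hgm : ∀ N, Measurable (g N) := fun N => Measurable.iSup fun M =>
        continuous_abs.measurable.comp ((measurable_Ab hSm s hf M.1).sub hEm)
      have hg0 : ∀ N y, 0 ≤ g N y := fun N y => Real.iSup_nonneg fun M => abs_nonneg _
      have hg2 : ∀ N y, g N y ≤ 2 := fun N y => by
        have := hne N
        exact ciSup_le fun M => hdev _ _
      have hgle : ∀ N y (M : κ → ℕ), (∀ l, N ≤ M l) → |Ab S s f M y - E y| ≤ g N y := fun N y M hM =>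
        le_ciSup (hbdd N y) ⟨M, hM⟩
      have hglim : ∀ᵐ y ∂μ, Tendsto (fun N => g N y) atTop (𝓝 0) := by
        filter_upwards [hElim] with y hy
        rw [Metric.tendsto_atTop]
        intro ε hε
        obtain ⟨M₀, hM₀⟩ := ((Metric.tendsto_nhds.1 hy) (ε / 2) (half_pos hε)).exists_forall_of_atTop
        refine ⟨∑ l, M₀ l, fun N hN => ?_⟩
        rw [Real.dist_0_eq_abs, abs_of_nonneg (hg0 N y)]
        have := hne N
        refine lt_of_le_of_lt (ciSup_le fun M => ?_) (half_lt_self hε)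
        have h2 : M₀ ≤ M.1 := fun l =>
          (Finset.single_le_sum (f := fun l => M₀ l) (fun _ _ => Nat.zero_le _)
            (Finset.mem_univ l)).trans (hN.trans (M.2 l))
        have h3 := hM₀ M.1 h2
        rw [Real.dist_eq] at h3
        exact h3.le
      -- averages of the deviation
      set U : ℕ → ℕ → X → ℝ := fun N T x => (T : ℝ)⁻¹ * ∑ t ∈ range T, g N (S (Pi.single a t) x)
        with hU
      have hU0 : ∀ N T x, 0 ≤ U N T x := fun N T x =>
        mul_nonneg (inv_nonneg.2 (Nat.cast_nonneg _)) (Finset.sum_nonneg fun t _ => hg0 _ _)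
      have hUm : ∀ N T, Measurable (U N T) := fun N T =>
        (Finset.measurable_fun_sum _ fun t _ => (hgm N).comp (hSm _)).const_mul _
      have hUlim : ∀ N, ∀ᵐ x ∂μ, ∃ L : ℝ, Tendsto (fun T => U N T x) atTop (𝓝 L) := by
        intro N
        filter_upwards [h1 a (fun y => g N y / 2) ((hgm N).div_const 2) (fun y => by
          rw [abs_of_nonneg (div_nonneg (hg0 N y) two_pos.le)]
          linarith [hg2 N y])] with x hx
        obtain ⟨L, hL⟩ := hx
        refine ⟨2 * L, (hL.const_mul 2).congr fun T => ?_⟩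
        simp only [hU]
        rw [← Finset.sum_div]
        ring
      have hUint : ∀ N T, ∫⁻ x, ENNReal.ofReal (U N T x) ∂μ ≤ ∫⁻ y, ENNReal.ofReal (g N y) ∂μ := by
        intro N T
        have h2 : ∀ x, ENNReal.ofReal (U N T x) =
            ENNReal.ofReal (T : ℝ)⁻¹ * ∑ t ∈ range T, ENNReal.ofReal (g N (S (Pi.single a t) x)) := by
          intro x
          simp only [hU]
          rw [ENNReal.ofReal_mul (inv_nonneg.2 (Nat.cast_nonneg _)),
            ENNReal.ofReal_sum_of_nonneg fun t _ => hg0 _ _]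
        have hgo : Measurable fun y => ENNReal.ofReal (g N y) := (hgm N).ennreal_ofReal
        have hgoS : ∀ t : ℕ, Measurable fun x => ENNReal.ofReal (g N (S (Pi.single a t) x)) :=
          fun t => hgo.comp (hSm _)
        simp only [h2]
        rw [lintegral_const_mul _ (Finset.measurable_fun_sum _ fun t _ => hgoS t),
          lintegral_finsetSum _ fun t _ => hgoS t]
        have h3 : ∀ t ∈ range T, ∫⁻ x, ENNReal.ofReal (g N (S (Pi.single a t) x)) ∂μ =
            ∫⁻ y, ENNReal.ofReal (g N y) ∂μ := fun t _ => (hS _).lintegral_comp hgo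
        rw [Finset.sum_congr rfl h3, Finset.sum_const, Finset.card_range, nsmul_eq_mul, ← mul_assoc]
        refine mul_le_of_le_one_left zero_le ?_
        rw [← ENNReal.ofReal_natCast, ← ENNReal.ofReal_mul (inv_nonneg.2 (Nat.cast_nonneg _))]
        exact ENNReal.ofReal_le_one.2 inv_mul_le_one
      have hgint : Tendsto (fun N => ∫⁻ y, ENNReal.ofReal (g N y) ∂μ) atTop (𝓝 0) := by
        have h2 : Tendsto (fun N => ∫⁻ y, ENNReal.ofReal (g N y) ∂μ) atTop
            (𝓝 (∫⁻ _, 0 ∂μ)) := by
          refine tendsto_lintegral_of_dominated_convergence (fun _ => ENNReal.ofReal 2)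
            (fun N => (hgm N).ennreal_ofReal)
            (fun N => Eventually.of_forall fun y => ENNReal.ofReal_le_ofReal (hg2 N y)) ?_ ?_
          · rw [lintegral_const]
            exact ENNReal.mul_ne_top ENNReal.ofReal_ne_top (measure_ne_top _ _)
          · filter_upwards [hglim] with y hy
            have h3 := ENNReal.tendsto_ofReal hy
            rwa [ENNReal.ofReal_zero] at h3
        rwa [lintegral_zero] at h2
      -- the infimum of the limits vanishes
      have hinf : ∫⁻ x, ⨅ N, liminf (fun T => ENNReal.ofReal (U N T x)) atTop ∂μ = 0 := by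
        refine le_antisymm (ge_of_tendsto' hgint fun N => ?_) zero_le
        refine (lintegral_mono fun x => iInf_le _ N).trans ?_
        refine (lintegral_liminf_le fun T => (hUm N T).ennreal_ofReal).trans ?_
        refine liminf_le_of_le (by isBoundedDefault) fun b hb => ?_
        obtain ⟨T, hT⟩ := hb.exists
        exact hT.trans (hUint N T)
      rw [lintegral_eq_zero_iff (Measurable.iInf fun N =>
        Measurable.liminf fun T => (hUm N T).ennreal_ofReal)] at hinf
      have hUall : ∀ᵐ x ∂μ, ∀ N, ∃ L : ℝ, Tendsto (fun T => U N T x) atTop (𝓝 L) :=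
        ae_all_iff.2 hUlim
      filter_upwards [hinf, hUall, h1 a E hEm hE1] with x hx hxU hxE
      refine exists_tendsto_of_approx _ fun ε hε => ?_
      have hMa : Tendsto (fun M : κ → ℕ => M a) atTop atTop :=
        tendsto_atTop.2 fun b => (eventually_ge b).mono fun M hM => hM a
      obtain ⟨LE, hLE⟩ := hxE
      refine ⟨fun M => (M a : ℝ)⁻¹ * ∑ t ∈ range (M a), E (S (Pi.single a t) x),
        ⟨LE, hLE.comp hMa⟩, ?_⟩
      have h2 : (⨅ N, liminf (fun T => ENNReal.ofReal (U N T x)) atTop) < ENNReal.ofReal ε := by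
        have h3 : (⨅ N, liminf (fun T => ENNReal.ofReal (U N T x)) atTop) = 0 := hx
        rw [h3]
        exact ENNReal.ofReal_pos.2 hε
      obtain ⟨N, hN⟩ := iInf_lt_iff.1 h2
      obtain ⟨LN, hLN⟩ := hxU N
      have h3 : liminf (fun T => ENNReal.ofReal (U N T x)) atTop = ENNReal.ofReal LN :=
        (ENNReal.tendsto_ofReal hLN).liminf_eq
      rw [h3, ENNReal.ofReal_lt_ofReal_iff hε] at hN
      have h4 : ∀ᶠ T in atTop, U N T x < ε := hLN.eventually (gt_mem_nhds hN)
      filter_upwards [hMa.eventually h4, eventually_ge N] with M hM hMN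
      rw [Ab_insert hsep ha]
      have h5 : (M a : ℝ)⁻¹ * ∑ t ∈ range (M a), Ab S s f M (S (Pi.single a t) x) -
          (M a : ℝ)⁻¹ * ∑ t ∈ range (M a), E (S (Pi.single a t) x) =
          (M a : ℝ)⁻¹ * ∑ t ∈ range (M a),
            (Ab S s f M (S (Pi.single a t) x) - E (S (Pi.single a t) x)) := by
        rw [Finset.sum_sub_distrib, mul_sub]
      rw [h5, abs_mul, abs_of_nonneg (inv_nonneg.2 (Nat.cast_nonneg (M a)) : (0 : ℝ) ≤ (M a : ℝ)⁻¹)]
      refine le_trans ?_ hM.le
      refine mul_le_mul_of_nonneg_left ?_ (inv_nonneg.2 (Nat.cast_nonneg _))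
      refine (Finset.abs_sum_le_sum_abs _ _).trans (Finset.sum_le_sum fun t _ => ?_)
      exact hgle N _ M hMN
  filter_upwards [hmain Finset.univ f hf hf1] with x hx
  obtain ⟨L, hL⟩ := hx
  refine ⟨L, hL.congr fun M => ?_⟩
  unfold Ab avg
  rw [boxs_univ]

end Pool.Agent.Lib.Pf720ae
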