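import Pool.Agent.Lib.Pf720ae.Osc.ApproxN

/-!
# Oscillation inequality along the curve on finite tori
-/

set_option autoImplicit false
set_option linter.unusedSectionVars false

open Finset ZMod

namespace Pool.Agent.Lib.Pf720ae.Poly

variable {D C : ℕ}

/-- error of the approximation -/
noncomputable def er {L : ℕ} [NeZero L] (i : ℕ) (a : Fin D → ZMod L) : ℂ :=
  em (fq a) (2 ^ i) - ∑ s ∈ range (i / 8 + 1), Lf i s (fq a)

lemma er_sq (hIW : IW D C) {L : ℕ} [NeZero L] (i : ℕ) (a : Fin D → ZMod L) :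
    ‖er i a‖ ^ 2 ≤ (26 * (1 + D) + 30) ^ 2 * (((i : ℝ) + 1) ^ 2 * (1 / 2) ^ (i / (16 * (C + 1)))) := by
  have h2 := approx hIW i (fq a)
  have h3 : ‖er i a‖ ^ 2 ≤ ((26 * (1 + D) + 30) * (i + 1) * (1 / 2) ^ (i / (16 * (C + 1)))) ^ 2 :=
    pow_le_pow_left₀ (norm_nonneg _) h2 2
  refine h3.trans ?_
  have h4 := half_sq_le (i / (16 * (C + 1)))
  calc ((26 * (1 + (D : ℝ)) + 30) * ((i : ℝ) + 1) * (1 / 2) ^ (i / (16 * (C + 1)))) ^ 2 =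
        (26 * (1 + D) + 30) ^ 2 * (((i : ℝ) + 1) ^ 2 * ((1 / 2) ^ (i / (16 * (C + 1)))) ^ 2) := by ring
    _ ≤ (26 * (1 + D) + 30) ^ 2 * (((i : ℝ) + 1) ^ 2 * (1 / 2) ^ (i / (16 * (C + 1)))) := by
        refine mul_le_mul_of_nonneg_left ?_ (sq_nonneg _)
        exact mul_le_mul_of_nonneg_left h4 (sq_nonneg _)

/-- tails of convergent series -/
lemma tail_small {f : ℕ → ℝ} (hf : Summable f) (hf0 : ∀ n, 0 ≤ f n) {η : ℝ} (hη : 0 < η) :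
    ∃ k₀, ∀ s : Finset ℕ, (∀ n ∈ s, k₀ ≤ n) → ∑ n ∈ s, f n ≤ η := by
  have h1 := (summable_iff_vanishing_norm.1 hf) η hη
  obtain ⟨s₀, hs₀⟩ := h1
  refine ⟨s₀.sup id + 1, fun s hs => ?_⟩
  have h2 : Disjoint s s₀ := by
    rw [Finset.disjoint_left]
    intro n hn hn'
    have h3 := hs n hn
    have h4 : n ≤ s₀.sup id := Finset.le_sup (f := id) hn'
    omega
  have h3 := hs₀ s h2
  exact (le_abs_self _).trans h3.le

/-- the errors at large scales are small -/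
lemma er_tail (hIW : IW D C) {η : ℝ} (hη : 0 < η) : ∃ k₀ : ℕ, ∀ (L : ℕ) [NeZero L]
    (F : (Fin D → ZMod L) → ℂ) (j : (Fin D → ZMod L) → ℕ), (∀ x, k₀ ≤ j x) →
    ∑ x, ‖op (er (j x)) F x‖ ^ 2 ≤ η * nn F := by
  have hS2 := (summable_half 2 (16 * (C + 1)) (by positivity)).mul_left
    ((26 * (1 + (D : ℝ)) + 30) ^ 2)
  obtain ⟨k₀, hk₀⟩ := tail_small hS2 (fun n => by positivity) hη
  refine ⟨k₀, fun L _ F j hj => ?_⟩
  have h1 := sel_op (Finset.univ.image j) er F j (fun x => Finset.mem_image_of_mem _ (Finset.mem_univ x))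
  refine h1.trans (sum_nn_op_le _ _ (fun a => ?_) F)
  refine (Finset.sum_le_sum fun i _ => er_sq hIW i a).trans (hk₀ _ ?_)
  intro n hn
  obtain ⟨x, -, rfl⟩ := Finset.mem_image.1 hn
  exact hj x

/-- the contribution of the large heights is small -/
lemma Lf_tail (hIW : IW D C) {η : ℝ} (hη : 0 < η) : ∃ S₀ : ℕ, ∀ (L : ℕ) [NeZero L]
    (F : (Fin D → ZMod L) → ℂ) (j : (Fin D → ZMod L) → ℕ) (n : (Fin D → ZMod L) → ℕ),
    ∑ x, ‖∑ s ∈ Ico S₀ (n x), op (fun a => Lf (j x) s (fq a)) F x‖ ^ 2 ≤ η * nn F := by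
  obtain ⟨A₁, hA₁, hlev⟩ := level hIW
  have hS1 := summable_half 4 (C + 1) (Nat.succ_pos C)
  have hS3 : Summable fun s : ℕ => (((s : ℝ) + 1)⁻¹) ^ 2 := by
    have h1 : Summable fun n : ℕ => 1 / ((n : ℝ)) ^ 2 :=
      Real.summable_one_div_nat_pow.2 one_lt_two
    have h2 := (summable_nat_add_iff 1).2 h1
    refine h2.congr fun s => ?_
    push_cast
    rw [inv_pow, one_div]
  set Z₃ := ∑' s : ℕ, (((s : ℝ) + 1)⁻¹) ^ 2 with hZ₃
  have hZ₃0 : 0 ≤ Z₃ := tsum_nonneg fun s => by positivity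
  obtain ⟨S₀, hS₀⟩ := tail_small (hS1.mul_left (Z₃ * A₁)) (fun n => by positivity) hη
  refine ⟨S₀, fun L _ F j n => ?_⟩
  have hnn := nn_nonneg F
  set J : ℕ := ∑ x, n x with hJ
  have hnJ : ∀ x, n x ≤ J := fun x =>
    Finset.single_le_sum (f := fun x => n x) (fun _ _ => Nat.zero_le _) (Finset.mem_univ x)
  have hpt : ∀ x, ‖∑ s ∈ Ico S₀ (n x), op (fun a => Lf (j x) s (fq a)) F x‖ ^ 2 ≤
      Z₃ * ∑ s ∈ Ico S₀ J, ((s : ℝ) + 1) ^ 2 * ‖op (fun a => Lf (j x) s (fq a)) F x‖ ^ 2 := by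
    intro x
    have h2 : ‖∑ s ∈ Ico S₀ (n x), op (fun a => Lf (j x) s (fq a)) F x‖ ≤
        ∑ s ∈ Ico S₀ J, ‖op (fun a => Lf (j x) s (fq a)) F x‖ := by
      refine (norm_sum_le _ _).trans ?_
      refine Finset.sum_le_sum_of_subset_of_nonneg ?_ fun _ _ _ => norm_nonneg _
      exact Finset.Ico_subset_Ico_right (hnJ x)
    refine (pow_le_pow_left₀ (norm_nonneg _) h2 2).trans ?_
    have h4 := Finset.sum_mul_sq_le_sq_mul_sq (Ico S₀ J) (fun s : ℕ => ((s : ℝ) + 1)⁻¹)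
      (fun s : ℕ => ((s : ℝ) + 1) * ‖op (fun a => Lf (j x) s (fq a)) F x‖)
    have h5 : ∀ s : ℕ, ((s : ℝ) + 1)⁻¹ * (((s : ℝ) + 1) * ‖op (fun a => Lf (j x) s (fq a)) F x‖) =
        ‖op (fun a => Lf (j x) s (fq a)) F x‖ := by
      intro s
      rw [inv_mul_cancel_left₀ (by positivity)]
    simp only [h5, mul_pow] at h4
    refine h4.trans (mul_le_mul_of_nonneg_right ?_ (Finset.sum_nonneg fun s _ => by positivity))
    exact hS3.sum_le_tsum _ fun s _ => by positivity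
  refine (Finset.sum_le_sum fun x _ => hpt x).trans ?_
  rw [← Finset.mul_sum, Finset.sum_comm]
  have h1 : ∀ s ∈ Ico S₀ J,
      ∑ x, ((s : ℝ) + 1) ^ 2 * ‖op (fun a => Lf (j x) s (fq a)) F x‖ ^ 2 ≤
      (A₁ * nn F) * (((s : ℝ) + 1) ^ 4 * (1 / 2) ^ (s / (C + 1))) := by
    intro s _
    rw [← Finset.mul_sum]
    have h2 := hlev L s F j
    have h3 := half_sq_le (s / (C + 1))
    refine (mul_le_mul_of_nonneg_left h2 (sq_nonneg _)).trans ?_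
    unfold gm
    calc ((s : ℝ) + 1) ^ 2 * (A₁ * ((s : ℝ) + 1) ^ 2 * ((1 / 2) ^ (s / (C + 1))) ^ 2 * nn F) =
          (A₁ * nn F) * (((s : ℝ) + 1) ^ 4 * ((1 / 2) ^ (s / (C + 1))) ^ 2) := by ring
      _ ≤ (A₁ * nn F) * (((s : ℝ) + 1) ^ 4 * (1 / 2) ^ (s / (C + 1))) := by
          refine mul_le_mul_of_nonneg_left ?_ (by positivity)
          exact mul_le_mul_of_nonneg_left h3 (by positivity)
  have h2 := hS₀ (Ico S₀ J) (fun n hn => (Finset.mem_Ico.1 hn).1)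
  rw [← Finset.mul_sum] at h2
  calc Z₃ * ∑ s ∈ Ico S₀ J, ∑ x, ((s : ℝ) + 1) ^ 2 * ‖op (fun a => Lf (j x) s (fq a)) F x‖ ^ 2 ≤
        Z₃ * ∑ s ∈ Ico S₀ J, (A₁ * nn F) * (((s : ℝ) + 1) ^ 4 * (1 / 2) ^ (s / (C + 1))) :=
        mul_le_mul_of_nonneg_left (Finset.sum_le_sum h1) hZ₃0
    _ = (Z₃ * A₁ * ∑ s ∈ Ico S₀ J, ((s : ℝ) + 1) ^ 4 * (1 / 2) ^ (s / (C + 1))) * nn F := by
        rw [← Finset.mul_sum]; ring
    _ ≤ η * nn F := mul_le_mul_of_nonneg_right h2 hnn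

lemma norm_add5_sq (a b c d e : ℂ) : ‖a + b + c + d + e‖ ^ 2 ≤
    5 * (‖a‖ ^ 2 + ‖b‖ ^ 2 + ‖c‖ ^ 2 + ‖d‖ ^ 2 + ‖e‖ ^ 2) := by
  have h1 : ‖a + b + c + d + e‖ ≤ ‖a‖ + ‖b‖ + ‖c‖ + ‖d‖ + ‖e‖ := by
    refine (norm_add_le _ _).trans (add_le_add ?_ le_rfl)
    refine (norm_add_le _ _).trans (add_le_add ?_ le_rfl)
    exact norm_add₃_le
  have h2 : ‖a + b + c + d + e‖ ^ 2 ≤ (‖a‖ + ‖b‖ + ‖c‖ + ‖d‖ + ‖e‖) ^ 2 :=
    pow_le_pow_left₀ (norm_nonneg _) h1 2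
  nlinarith [sq_nonneg (‖a‖ - ‖b‖), sq_nonneg (‖a‖ - ‖c‖), sq_nonneg (‖a‖ - ‖d‖),
    sq_nonneg (‖a‖ - ‖e‖), sq_nonneg (‖b‖ - ‖c‖), sq_nonneg (‖b‖ - ‖d‖), sq_nonneg (‖b‖ - ‖e‖),
    sq_nonneg (‖c‖ - ‖d‖), sq_nonneg (‖c‖ - ‖e‖), sq_nonneg (‖d‖ - ‖e‖)]

/-- oscillation inequality, Fourier form -/
theorem oscfin_em (hIW : IW D C) {ε : ℝ} (hε : 0 < ε) : ∃ J₀ : ℕ, ∀ (L : ℕ) [NeZero L]
    (F : (Fin D → ZMod L) → ℂ) (σ : ℕ → ℕ) (_ : StrictMono σ) (j : ℕ → (Fin D → ZMod L) → ℕ)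
    (_ : ∀ i x, σ i ≤ j i x ∧ j i x < σ (i + 1)) (J : ℕ), J₀ ≤ J →
    ∑ i ∈ range J, ∑ x, ‖op (fun a => em (fq a) (2 ^ j i x)) F x -
      op (fun a => em (fq a) (2 ^ σ i)) F x‖ ^ 2 ≤ ε * J * nn F := by
  obtain ⟨A₀, hA₀, hmax⟩ := maxfin_em hIW
  obtain ⟨A, ρ, hA, hρ0, hρ1, hosc⟩ := osc_level hIW
  set η : ℝ := ε / 40 with hη
  have hη0 : 0 < η := by positivity
  obtain ⟨k₀, hk₀⟩ := er_tail hIW hη0
  obtain ⟨S₀, hS₀⟩ := Lf_tail hIW hη0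
  -- choice of T
  obtain ⟨T, hT⟩ : ∃ T : ℕ, (S₀ : ℝ) ^ 2 * A * ρ ^ T ≤ η := by
    have h1 := tendsto_pow_atTop_nhds_zero_of_lt_one hρ0.le hρ1
    have h2 := h1.const_mul ((S₀ : ℝ) ^ 2 * A)
    rw [mul_zero] at h2
    obtain ⟨T, hT⟩ := (h2.eventually (gt_mem_nhds hη0)).exists
    exact ⟨T, hT.le⟩
  set i₀ : ℕ := max k₀ (8 * S₀) with hi₀
  set W : ℝ := 4 * A₀ * i₀ + 5 * ((S₀ : ℝ) ^ 2 * (A * ((S₀ : ℝ) + 1) ^ 2 * (2 * T + 1))) with hW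
  obtain ⟨J₀, hJ₀⟩ := exists_nat_ge (W / (5 * η))
  refine ⟨max J₀ i₀, fun L _ F σ hσ j hj J hJ => ?_⟩
  have hnn := nn_nonneg F
  have hJ1 : J₀ ≤ J := (le_max_left _ _).trans hJ
  have hJ2 : i₀ ≤ J := (le_max_right _ _).trans hJ
  have hσi : ∀ i, i ≤ σ i := fun i => hσ.id_le i
  -- decomposition at large scales
  have hdec : ∀ k x, S₀ ≤ k / 8 + 1 → op (fun a => em (fq a) (2 ^ k)) F x =
      op (er k) F x + ∑ s ∈ range S₀, op (fun a => Lf k s (fq a)) F x +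
        ∑ s ∈ Ico S₀ (k / 8 + 1), op (fun a => Lf k s (fq a)) F x := by
    intro k x hk
    rw [add_assoc, Finset.sum_range_add_sum_Ico _ hk, ← op_sum, ← op_add]
    congr 1
    funext a
    simp only [er]
    ring
  set dd : ℕ → (Fin D → ZMod L) → ℝ := fun i x => ‖op (fun a => em (fq a) (2 ^ j i x)) F x -
      op (fun a => em (fq a) (2 ^ σ i)) F x‖ ^ 2 with hdd
  -- trivial bound
  have htriv : ∀ i, ∑ x, dd i x ≤ 4 * A₀ * nn F := by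
    intro i
    have h1 : ∀ x, dd i x ≤ 2 * ‖op (fun a => em (fq a) (2 ^ j i x)) F x‖ ^ 2 +
        2 * ‖op (fun a => em (fq a) (2 ^ σ i)) F x‖ ^ 2 := fun x => norm_sub_sq_le _ _
    refine (Finset.sum_le_sum fun x _ => h1 x).trans ?_
    rw [Finset.sum_add_distrib, ← Finset.mul_sum, ← Finset.mul_sum]
    have h2 := hmax L F (j i)
    have h3 := hmax L F (fun _ => σ i)
    linarith
  -- large indices
  have hbig : ∀ i, i₀ ≤ i → ∑ x, dd i x ≤ 20 * η * nn F +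
      5 * ((S₀ : ℝ) * ∑ s ∈ range S₀, ∑ x, ‖op (fun a => Lf (j i x) s (fq a)) F x -
        op (fun a => Lf (σ i) s (fq a)) F x‖ ^ 2) := by
    intro i hi
    have hki : k₀ ≤ σ i := (le_max_left _ _).trans (hi.trans (hσi i))
    have hSi : 8 * S₀ ≤ σ i := (le_max_right _ _).trans (hi.trans (hσi i))
    have hpt : ∀ x, dd i x ≤ 5 * (‖op (er (j i x)) F x‖ ^ 2 + ‖op (er (σ i)) F x‖ ^ 2 +
        (S₀ : ℝ) * ∑ s ∈ range S₀, ‖op (fun a => Lf (j i x) s (fq a)) F x -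
          op (fun a => Lf (σ i) s (fq a)) F x‖ ^ 2 +
        ‖∑ s ∈ Ico S₀ (j i x / 8 + 1), op (fun a => Lf (j i x) s (fq a)) F x‖ ^ 2 +
        ‖∑ s ∈ Ico S₀ (σ i / 8 + 1), op (fun a => Lf (σ i) s (fq a)) F x‖ ^ 2) := by
      intro x
      have hjx := hj i x
      have h1 : op (fun a => em (fq a) (2 ^ j i x)) F x - op (fun a => em (fq a) (2 ^ σ i)) F x =
          op (er (j i x)) F x + (-op (er (σ i)) F x) +
          (∑ s ∈ range S₀, (op (fun a => Lf (j i x) s (fq a)) F x -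
            op (fun a => Lf (σ i) s (fq a)) F x)) +
          (∑ s ∈ Ico S₀ (j i x / 8 + 1), op (fun a => Lf (j i x) s (fq a)) F x) +
          (-∑ s ∈ Ico S₀ (σ i / 8 + 1), op (fun a => Lf (σ i) s (fq a)) F x) := by
        rw [hdec (j i x) x (by omega), hdec (σ i) x (by omega), Finset.sum_sub_distrib]
        ring
      simp only [hdd]
      rw [h1]
      refine (norm_add5_sq _ _ _ _ _).trans ?_
      rw [norm_neg, norm_neg]
      have h2 : ‖∑ s ∈ range S₀, (op (fun a => Lf (j i x) s (fq a)) F x -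
            op (fun a => Lf (σ i) s (fq a)) F x)‖ ^ 2 ≤
          (S₀ : ℝ) * ∑ s ∈ range S₀, ‖op (fun a => Lf (j i x) s (fq a)) F x -
          op (fun a => Lf (σ i) s (fq a)) F x‖ ^ 2 := by
        refine (pow_le_pow_left₀ (norm_nonneg _) (norm_sum_le _ _) 2).trans ?_
        have h3 := sq_sum_le_card_mul_sum_sq (s := range S₀)
          (f := fun s => ‖op (fun a => Lf (j i x) s (fq a)) F x -
          op (fun a => Lf (σ i) s (fq a)) F x‖)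
        rwa [Finset.card_range] at h3
      linarith
    refine (Finset.sum_le_sum fun x _ => hpt x).trans ?_
    rw [← Finset.mul_sum, Finset.sum_add_distrib, Finset.sum_add_distrib, Finset.sum_add_distrib,
      Finset.sum_add_distrib, ← Finset.mul_sum]
    have e1 := hk₀ L F (j i) (fun x => hki.trans (hj i x).1)
    have e2 := hk₀ L F (fun _ => σ i) (fun _ => hki)
    have e3 := hS₀ L F (j i) (fun x => j i x / 8 + 1)
    have e4 := hS₀ L F (fun _ => σ i) (fun _ => σ i / 8 + 1)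
    have e5 : ∑ x, ∑ s ∈ range S₀, ‖op (fun a => Lf (j i x) s (fq a)) F x -
          op (fun a => Lf (σ i) s (fq a)) F x‖ ^ 2 =
        ∑ s ∈ range S₀, ∑ x, ‖op (fun a => Lf (j i x) s (fq a)) F x -
          op (fun a => Lf (σ i) s (fq a)) F x‖ ^ 2 := Finset.sum_comm
    rw [e5]
    linarith
  -- the main terms
  have hmain : ∑ i ∈ range J, ∑ s ∈ range S₀, ∑ x, ‖op (fun a => Lf (j i x) s (fq a)) F x -
        op (fun a => Lf (σ i) s (fq a)) F x‖ ^ 2 ≤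
      S₀ * ((A * ((S₀ : ℝ) + 1) ^ 2 * (2 * T + 1) + A * ρ ^ T * J) * nn F) := by
    rw [Finset.sum_comm]
    have h1 : ∀ s ∈ range S₀, ∑ i ∈ range J, ∑ x, ‖op (fun a => Lf (j i x) s (fq a)) F x -
        op (fun a => Lf (σ i) s (fq a)) F x‖ ^ 2 ≤
        (A * ((S₀ : ℝ) + 1) ^ 2 * (2 * T + 1) + A * ρ ^ T * J) * nn F := by
      intro s hs
      have h2 := hosc L s F σ hσ j hj T J
      refine h2.trans (mul_le_mul_of_nonneg_right ?_ hnn)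
      have h3 : (s : ℝ) ≤ S₀ := by exact_mod_cast (Finset.mem_range.1 hs).le
      gcongr
    refine (Finset.sum_le_sum h1).trans ?_
    rw [Finset.sum_const, Finset.card_range, nsmul_eq_mul]
  -- assembly
  have hall : ∀ i ∈ range J, ∑ x, dd i x ≤ (if i < i₀ then 4 * A₀ * nn F else 0) +
      (20 * η * nn F + 5 * ((S₀ : ℝ) * ∑ s ∈ range S₀, ∑ x,
        ‖op (fun a => Lf (j i x) s (fq a)) F x - op (fun a => Lf (σ i) s (fq a)) F x‖ ^ 2)) := by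
    intro i _
    have hpos : 0 ≤ 20 * η * nn F + 5 * ((S₀ : ℝ) * ∑ s ∈ range S₀, ∑ x,
        ‖op (fun a => Lf (j i x) s (fq a)) F x - op (fun a => Lf (σ i) s (fq a)) F x‖ ^ 2) := by
      positivity
    by_cases h : i < i₀
    · rw [if_pos h]
      linarith [htriv i]
    · rw [if_neg h, zero_add]
      exact hbig i (not_lt.1 h)
  refine (Finset.sum_le_sum hall).trans ?_
  rw [Finset.sum_add_distrib, Finset.sum_add_distrib, Finset.sum_const, Finset.card_range,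
    nsmul_eq_mul, ← Finset.mul_sum, ← Finset.mul_sum]
  have h1 : ∑ i ∈ range J, (if i < i₀ then 4 * A₀ * nn F else 0) ≤ i₀ * (4 * A₀ * nn F) := by
    rw [← Finset.sum_filter, Finset.sum_const, nsmul_eq_mul]
    refine mul_le_mul_of_nonneg_right ?_ (by positivity)
    have h2 : (range J).filter (fun i => i < i₀) ⊆ range i₀ := by
      intro i hi
      exact Finset.mem_range.2 (Finset.mem_filter.1 hi).2
    have h3 := Finset.card_le_card h2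
    rw [Finset.card_range] at h3
    exact_mod_cast h3
  have hS0n : (0 : ℝ) ≤ S₀ := Nat.cast_nonneg _
  have h2 : 5 * ((S₀ : ℝ) * ∑ i ∈ range J, ∑ s ∈ range S₀, ∑ x,
      ‖op (fun a => Lf (j i x) s (fq a)) F x - op (fun a => Lf (σ i) s (fq a)) F x‖ ^ 2) ≤
      5 * ((S₀ : ℝ) * (S₀ * ((A * ((S₀ : ℝ) + 1) ^ 2 * (2 * T + 1) + A * ρ ^ T * J) * nn F))) := by
    gcongr
  have h3 : W ≤ 5 * η * J := by
    have h4 : W / (5 * η) ≤ J := hJ₀.trans (by exact_mod_cast hJ1)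
    rw [div_le_iff₀ (by positivity)] at h4
    linarith
  have h4 : (S₀ : ℝ) ^ 2 * A * ρ ^ T * J ≤ η * J :=
    mul_le_mul_of_nonneg_right hT (Nat.cast_nonneg _)
  have h5 : i₀ * (4 * A₀ * nn F) + (J * (20 * η * nn F) +
      5 * ((S₀ : ℝ) * (S₀ * ((A * ((S₀ : ℝ) + 1) ^ 2 * (2 * T + 1) + A * ρ ^ T * J) * nn F)))) =
      (W + 20 * η * J + 5 * ((S₀ : ℝ) ^ 2 * A * ρ ^ T * J)) * nn F := by
    rw [hW]; ring
  have h6 : W + 20 * η * J + 5 * ((S₀ : ℝ) ^ 2 * A * ρ ^ T * J) ≤ ε * J := by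
    have h7 : ε * J = 40 * η * J := by rw [hη]; ring
    have h8 : 0 ≤ η * J := by positivity
    rw [h7]
    linarith
  calc _ ≤ i₀ * (4 * A₀ * nn F) + (J * (20 * η * nn F) +
      5 * ((S₀ : ℝ) * (S₀ * ((A * ((S₀ : ℝ) + 1) ^ 2 * (2 * T + 1) + A * ρ ^ T * J) * nn F)))) :=
        add_le_add h1 (add_le_add le_rfl h2)
    _ = (W + 20 * η * J + 5 * ((S₀ : ℝ) ^ 2 * A * ρ ^ T * J)) * nn F := h5
    _ ≤ ε * J * nn F := mul_le_mul_of_nonneg_right h6 hnn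

/-- averages on the torus -/
noncomputable def TA {L : ℕ} (F : (Fin D → ZMod L) → ℂ) (x : Fin D → ZMod L) (N : ℕ) : ℂ :=
  (N : ℂ)⁻¹ * ∑ n ∈ range N, F (x + gam L n)

/-- oscillation inequality along the curve on finite tori -/
theorem oscfin (D : ℕ) {ε : ℝ} (hε : 0 < ε) : ∃ J₀ : ℕ, ∀ (L : ℕ) [NeZero L]
    (F : (Fin D → ZMod L) → ℂ) (σ : ℕ → ℕ) (_ : StrictMono σ) (j : ℕ → (Fin D → ZMod L) → ℕ)
    (_ : ∀ i x, σ i ≤ j i x ∧ j i x < σ (i + 1)) (J : ℕ), J₀ ≤ J →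
    ∑ i ∈ range J, ∑ x, ‖TA F x (2 ^ j i x) - TA F x (2 ^ σ i)‖ ^ 2 ≤
      ε * J * ∑ x, ‖F x‖ ^ 2 := by
  obtain ⟨C, hC⟩ := inverse_weyl D
  obtain ⟨J₀, h⟩ := oscfin_em (D := D) (C := C) hC hε
  refine ⟨J₀, fun L _ F σ hσ j hj J hJ => ?_⟩
  refine (le_of_eq ?_).trans (h L F σ hσ j hj J hJ)
  refine Finset.sum_congr rfl fun i _ => Finset.sum_congr rfl fun x _ => ?_
  rw [op_em, op_em]
  rfl

/-- square function of the differences of proportional scales, Fourier form -/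
lemma sqfin_em (hIW : IW D C) (K : ℕ) (hK : 1 ≤ K) : ∃ A : ℝ, 0 ≤ A ∧ ∀ (ξ : Fin D → ℝ) (n : ℕ),
    ∑ j ∈ range n, ‖em ξ (K * 2 ^ j) - em ξ (2 ^ j)‖ ^ 2 ≤ A := by
  obtain ⟨A₁, hA₁, hvv⟩ := vv_sqK hIW K hK
  have hS1 := summable_half 4 (C + 1) (Nat.succ_pos C)
  have hS2 := summable_half 2 (16 * (C + 1)) (by positivity)
  have hS3 : Summable fun s : ℕ => (((s : ℝ) + 1)⁻¹) ^ 2 := by
    have h1 : Summable fun n : ℕ => 1 / ((n : ℝ)) ^ 2 :=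
      Real.summable_one_div_nat_pow.2 one_lt_two
    have h2 := (summable_nat_add_iff 1).2 h1
    refine h2.congr fun s => ?_
    push_cast
    rw [inv_pow, one_div]
  set Z₁ := ∑' s : ℕ, ((s : ℝ) + 1) ^ 4 * (1 / 2) ^ (s / (C + 1)) with hZ₁
  set Z₂ := ∑' s : ℕ, ((s : ℝ) + 1) ^ 2 * (1 / 2) ^ (s / (16 * (C + 1))) with hZ₂
  set Z₃ := ∑' s : ℕ, (((s : ℝ) + 1)⁻¹) ^ 2 with hZ₃
  set B : ℝ := 26 * (1 + D) + 30 with hB
  have hZ₁0 : 0 ≤ Z₁ := tsum_nonneg fun s => by positivity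
  have hZ₂0 : 0 ≤ Z₂ := tsum_nonneg fun s => by positivity
  have hZ₃0 : 0 ≤ Z₃ := tsum_nonneg fun s => by positivity
  refine ⟨6 * (B ^ 2 * Z₂) + 3 * (Z₃ * (A₁ * Z₁)), by positivity, fun ξ n => ?_⟩
  set e1 : ℕ → ℂ := fun j => em ξ (K * 2 ^ j) - ∑ s ∈ range (j / 8 + 1), LfN (K * 2 ^ j) s ξ with he1
  set e2 : ℕ → ℂ := fun j => em ξ (2 ^ j) - ∑ s ∈ range (j / 8 + 1), Lf j s ξ with he2
  have hle : ∀ j : ℕ, 2 ^ j ≤ K * 2 ^ j := fun j => Nat.le_mul_of_pos_left _ hK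
  have hb1 : ∀ j, ‖e1 j‖ ^ 2 ≤ B ^ 2 * (((j : ℝ) + 1) ^ 2 * (1 / 2) ^ (j / (16 * (C + 1)))) := by
    intro j
    have h2 := approxN hIW (hle j) ξ
    refine (pow_le_pow_left₀ (norm_nonneg _) h2 2).trans ?_
    have h4 := half_sq_le (j / (16 * (C + 1)))
    calc (B * ((j : ℝ) + 1) * (1 / 2) ^ (j / (16 * (C + 1)))) ^ 2 =
          B ^ 2 * (((j : ℝ) + 1) ^ 2 * ((1 / 2) ^ (j / (16 * (C + 1)))) ^ 2) := by ring
      _ ≤ B ^ 2 * (((j : ℝ) + 1) ^ 2 * (1 / 2) ^ (j / (16 * (C + 1)))) := by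
          refine mul_le_mul_of_nonneg_left ?_ (sq_nonneg _)
          exact mul_le_mul_of_nonneg_left h4 (sq_nonneg _)
  have hb2 : ∀ j, ‖e2 j‖ ^ 2 ≤ B ^ 2 * (((j : ℝ) + 1) ^ 2 * (1 / 2) ^ (j / (16 * (C + 1)))) := by
    intro j
    have h2 := approx hIW j ξ
    refine (pow_le_pow_left₀ (norm_nonneg _) h2 2).trans ?_
    have h4 := half_sq_le (j / (16 * (C + 1)))
    calc (B * ((j : ℝ) + 1) * (1 / 2) ^ (j / (16 * (C + 1)))) ^ 2 =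
          B ^ 2 * (((j : ℝ) + 1) ^ 2 * ((1 / 2) ^ (j / (16 * (C + 1)))) ^ 2) := by ring
      _ ≤ B ^ 2 * (((j : ℝ) + 1) ^ 2 * (1 / 2) ^ (j / (16 * (C + 1)))) := by
          refine mul_le_mul_of_nonneg_left ?_ (sq_nonneg _)
          exact mul_le_mul_of_nonneg_left h4 (sq_nonneg _)
  have hLd : ∀ s, ∑ j ∈ range n, ‖LfN (K * 2 ^ j) s ξ - Lf j s ξ‖ ^ 2 ≤ gm C s ^ 2 * A₁ := by
    intro s
    by_cases h : ∃ p, Near s ξ p
    · obtain ⟨p, hp⟩ := h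
      have h1 : ∀ j ∈ range n, ‖LfN (K * 2 ^ j) s ξ - Lf j s ξ‖ ^ 2 ≤
          gm C s ^ 2 * ‖vv (bet ξ p) (K * 2 ^ j) - vv (bet ξ p) (2 ^ j)‖ ^ 2 := by
        intro j _
        rw [LfN_of_near hp, Lf_of_near hp, ← mul_sub, norm_mul, mul_pow]
        refine mul_le_mul_of_nonneg_right ?_ (sq_nonneg _)
        exact pow_le_pow_left₀ (norm_nonneg _) (gs_small hIW hp.1 hp.2.2.1) 2
      refine (Finset.sum_le_sum h1).trans ?_
      rw [← Finset.mul_sum]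
      exact mul_le_mul_of_nonneg_left (hvv _ n) (sq_nonneg _)
    · have h1 : ∀ j ∈ range n, ‖LfN (K * 2 ^ j) s ξ - Lf j s ξ‖ ^ 2 = 0 := by
        intro j _
        rw [LfN_of_not h, Lf_of_not h, sub_zero, norm_zero]
        norm_num
      rw [Finset.sum_congr rfl h1, Finset.sum_const_zero]
      positivity
  have hpt : ∀ j ∈ range n, ‖em ξ (K * 2 ^ j) - em ξ (2 ^ j)‖ ^ 2 ≤
      6 * (B ^ 2 * (((j : ℝ) + 1) ^ 2 * (1 / 2) ^ (j / (16 * (C + 1))))) +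
      3 * (Z₃ * ∑ s ∈ range (n / 8 + 1), ((s : ℝ) + 1) ^ 2 *
        ‖LfN (K * 2 ^ j) s ξ - Lf j s ξ‖ ^ 2) := by
    intro j hj
    have h1 : em ξ (K * 2 ^ j) - em ξ (2 ^ j) = e1 j + (-e2 j) +
        ∑ s ∈ range (j / 8 + 1), (LfN (K * 2 ^ j) s ξ - Lf j s ξ) := by
      rw [Finset.sum_sub_distrib]
      simp only [he1, he2]
      ring
    rw [h1]
    refine (norm_add3_sq _ _ _).trans ?_
    rw [norm_neg]
    have h2 : ‖∑ s ∈ range (j / 8 + 1), (LfN (K * 2 ^ j) s ξ - Lf j s ξ)‖ ≤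
        ∑ s ∈ range (n / 8 + 1), ‖LfN (K * 2 ^ j) s ξ - Lf j s ξ‖ := by
      refine (norm_sum_le _ _).trans ?_
      refine Finset.sum_le_sum_of_subset_of_nonneg ?_ fun _ _ _ => norm_nonneg _
      refine Finset.range_mono ?_
      have := Finset.mem_range.1 hj
      omega
    have h3 : (∑ s ∈ range (n / 8 + 1), ‖LfN (K * 2 ^ j) s ξ - Lf j s ξ‖) ^ 2 ≤
        Z₃ * ∑ s ∈ range (n / 8 + 1), ((s : ℝ) + 1) ^ 2 *
          ‖LfN (K * 2 ^ j) s ξ - Lf j s ξ‖ ^ 2 := by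
      have h4 := Finset.sum_mul_sq_le_sq_mul_sq (range (n / 8 + 1)) (fun s : ℕ => ((s : ℝ) + 1)⁻¹)
        (fun s : ℕ => ((s : ℝ) + 1) * ‖LfN (K * 2 ^ j) s ξ - Lf j s ξ‖)
      have h5 : ∀ s : ℕ, ((s : ℝ) + 1)⁻¹ * (((s : ℝ) + 1) * ‖LfN (K * 2 ^ j) s ξ - Lf j s ξ‖) =
          ‖LfN (K * 2 ^ j) s ξ - Lf j s ξ‖ := by
        intro s
        rw [inv_mul_cancel_left₀ (by positivity)]
      simp only [h5, mul_pow] at h4
      refine h4.trans (mul_le_mul_of_nonneg_right ?_ (Finset.sum_nonneg fun s _ => by positivity))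
      exact hS3.sum_le_tsum _ fun s _ => by positivity
    have h4 := (pow_le_pow_left₀ (norm_nonneg _) h2 2).trans h3
    linarith [hb1 j, hb2 j]
  refine (Finset.sum_le_sum hpt).trans ?_
  rw [Finset.sum_add_distrib, ← Finset.mul_sum, ← Finset.mul_sum, ← Finset.mul_sum,
    ← Finset.mul_sum, Finset.sum_comm]
  have h1 : ∑ j ∈ range n, ((j : ℝ) + 1) ^ 2 * (1 / 2) ^ (j / (16 * (C + 1))) ≤ Z₂ :=
    hS2.sum_le_tsum _ fun s _ => by positivity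
  have h2 : ∑ s ∈ range (n / 8 + 1), ∑ j ∈ range n, ((s : ℝ) + 1) ^ 2 *
      ‖LfN (K * 2 ^ j) s ξ - Lf j s ξ‖ ^ 2 ≤ A₁ * Z₁ := by
    have h3 : ∀ s ∈ range (n / 8 + 1), ∑ j ∈ range n, ((s : ℝ) + 1) ^ 2 *
        ‖LfN (K * 2 ^ j) s ξ - Lf j s ξ‖ ^ 2 ≤
        A₁ * (((s : ℝ) + 1) ^ 4 * (1 / 2) ^ (s / (C + 1))) := by
      intro s _
      rw [← Finset.mul_sum]
      have h4 := hLd s
      have h5 := half_sq_le (s / (C + 1))
      unfold gm at h4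
      have h6 : ((s : ℝ) + 1) ^ 2 ≤ ((s : ℝ) + 1) ^ 4 := by
        refine pow_le_pow_right₀ ?_ (by norm_num)
        have : (0 : ℝ) ≤ s := Nat.cast_nonneg s
        linarith
      calc ((s : ℝ) + 1) ^ 2 * ∑ j ∈ range n, ‖LfN (K * 2 ^ j) s ξ - Lf j s ξ‖ ^ 2 ≤
            ((s : ℝ) + 1) ^ 4 * (((1 / 2) ^ (s / (C + 1))) ^ 2 * A₁) := by
            refine mul_le_mul h6 h4 (Finset.sum_nonneg fun _ _ => sq_nonneg _) (by positivity)
        _ ≤ ((s : ℝ) + 1) ^ 4 * ((1 / 2) ^ (s / (C + 1)) * A₁) := by gcongr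
        _ = A₁ * (((s : ℝ) + 1) ^ 4 * (1 / 2) ^ (s / (C + 1))) := by ring
    refine (Finset.sum_le_sum h3).trans ?_
    rw [← Finset.mul_sum]
    exact mul_le_mul_of_nonneg_left (hS1.sum_le_tsum _ fun s _ => by positivity) hA₁
  gcongr

/-- square function inequality on finite tori -/
theorem sqfin (D : ℕ) (K : ℕ) (hK : 1 ≤ K) : ∃ A : ℝ, 0 ≤ A ∧ ∀ (L : ℕ) [NeZero L]
    (F : (Fin D → ZMod L) → ℂ) (n : ℕ),
    ∑ j ∈ range n, ∑ x, ‖TA F x (K * 2 ^ j) - TA F x (2 ^ j)‖ ^ 2 ≤ A * ∑ x, ‖F x‖ ^ 2 := by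
  obtain ⟨C, hC⟩ := inverse_weyl D
  obtain ⟨A, hA, h⟩ := sqfin_em (D := D) (C := C) hC K hK
  refine ⟨A, hA, fun L _ F n => ?_⟩
  have h1 := sum_nn_op_le (range n) (fun j => fun a : Fin D → ZMod L =>
    em (fq a) (K * 2 ^ j) - em (fq a) (2 ^ j)) (B := A) (fun a => h (fq a) n) F
  refine (le_of_eq ?_).trans h1
  refine Finset.sum_congr rfl fun j _ => ?_
  unfold nn
  refine Finset.sum_congr rfl fun x _ => ?_
  rw [op_sub, op_em, op_em]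
  rfl

end Pool.Agent.Lib.Pf720ae.Poly
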