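import Pool.Agent.Lib.Pf720ae.Osc.OscFin
import Pool.Agent.Lib.Pf720ae.Poly.Transfer

/-!
# Transference of inequalities for averages along the curve to measure preserving actions
-/

set_option autoImplicit false
set_option linter.unusedSectionVars false

open Finset ZMod MeasureTheory Filter Topology
open scoped ENNReal NNReal

namespace Pool.Agent.Lib.Pf720ae.Poly

variable {D : ℕ} {X : Type} [MeasurableSpace X] {μ : Measure X}

/-- averages along the curve -/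
noncomputable def Av (R : (Fin D → ℕ) → X → X) (f : X → ℂ) (x : X) (N : ℕ) : ℂ :=
  (N : ℂ)⁻¹ * ∑ n ∈ range N, f (R (cur n) x)

lemma measurable_Av {R : (Fin D → ℕ) → X → X} (hR : ∀ m, Measurable (R m)) {f : X → ℂ}
    (hf : Measurable f) (N : ℕ) : Measurable fun x => Av R f x N :=
  (Finset.measurable_fun_sum _ fun _ _ => hf.comp (hR _)).const_mul _

/-- general transference principle -/
theorem transfer {B : ℝ≥0} {G : (ℕ → ℂ) → ℝ≥0} {J : ℕ}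
    (hGloc : ∀ a b : ℕ → ℂ, (∀ N, N ≤ 2 ^ J → a N = b N) → G a = G b) (hGm : Measurable G)
    (hfin : ∀ (L : ℕ) [NeZero L] (F : (Fin D → ZMod L) → ℂ),
      ∑ x, G (TA F x) ≤ B * ∑ x, ‖F x‖₊ ^ 2)
    {R : (Fin D → ℕ) → X → X} (hRadd : ∀ m n x, R (m + n) x = R m (R n x))
    (hR : ∀ m, MeasurePreserving (R m) μ μ) {f : X → ℂ} (hf : Measurable f) :
    ∫⁻ x, G (Av R f x) ∂μ ≤ (2 ^ D * B : ℝ≥0) * ∫⁻ x, ‖f x‖ₑ ^ 2 ∂μ := by
  set H : ℕ := 2 ^ (J * D) with hH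
  have hH0 : 0 < H := pow_pos two_pos _
  set L : ℕ := 2 * H with hL
  have : NeZero L := ⟨by omega⟩
  have hRm : ∀ m, Measurable (R m) := fun m => (hR m).measurable
  have hGA : Measurable fun x => (G (Av R f x) : ℝ≥0∞) := by
    refine (hGm.comp ?_).coe_nnreal_ennreal
    exact measurable_pi_lambda _ fun N => measurable_Av hRm hf N
  have hf2 : Measurable fun x => ‖f x‖ₑ ^ 2 := hf.enorm.pow_const 2
  have hpt : ∀ x, ∑ v ∈ SH D L H, (G (Av R f (R (vl v) x)) : ℝ≥0∞) ≤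
      B * ∑ v : Fin D → ZMod L, ‖f (R (vl v) x)‖ₑ ^ 2 := by
    intro x
    set F : (Fin D → ZMod L) → ℂ := fun v => f (R (vl v) x) with hF
    have h1 := hfin L F
    have h2 : ∀ v ∈ SH D L H, G (Av R f (R (vl v) x)) = G (TA F v) := by
      intro v hv
      refine hGloc _ _ fun N hN => ?_
      unfold Av TA
      congr 1
      refine Finset.sum_congr rfl fun n hn => ?_
      simp only [hF]
      rw [vl_add hL hv (lt_of_lt_of_le (Finset.mem_range.1 hn) hN), ← hRadd]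
    have h3 : ∑ v ∈ SH D L H, G (Av R f (R (vl v) x)) ≤ B * ∑ v, ‖F v‖₊ ^ 2 := by
      rw [Finset.sum_congr rfl h2]
      exact (Finset.sum_le_sum_of_subset (Finset.subset_univ _)).trans h1
    have h4 : ((∑ v ∈ SH D L H, G (Av R f (R (vl v) x)) : ℝ≥0) : ℝ≥0∞) ≤
        ((B * ∑ v, ‖F v‖₊ ^ 2 : ℝ≥0) : ℝ≥0∞) := ENNReal.coe_le_coe.2 h3
    push_cast at h4
    exact h4
  have h1 : ∫⁻ x, ∑ v ∈ SH D L H, (G (Av R f (R (vl v) x)) : ℝ≥0∞) ∂μ ≤
      ∫⁻ x, B * ∑ v : Fin D → ZMod L, ‖f (R (vl v) x)‖ₑ ^ 2 ∂μ := lintegral_mono hpt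
  have h2 : ∫⁻ x, ∑ v ∈ SH D L H, (G (Av R f (R (vl v) x)) : ℝ≥0∞) ∂μ =
      (H : ℝ≥0∞) ^ D * ∫⁻ x, G (Av R f x) ∂μ := by
    rw [lintegral_finsetSum]
    · have h3 : ∀ v ∈ SH D L H, ∫⁻ x, (G (Av R f (R (vl v) x)) : ℝ≥0∞) ∂μ =
          ∫⁻ x, G (Av R f x) ∂μ := fun v _ => (hR (vl v)).lintegral_comp hGA
      rw [Finset.sum_congr rfl h3, Finset.sum_const, card_SH (by omega), nsmul_eq_mul]
      push_cast
      rfl
    · intro v _
      exact hGA.comp (hRm (vl v))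
  have h3 : ∫⁻ x, B * ∑ v : Fin D → ZMod L, ‖f (R (vl v) x)‖ₑ ^ 2 ∂μ =
      B * ((L : ℝ≥0∞) ^ D * ∫⁻ x, ‖f x‖ₑ ^ 2 ∂μ) := by
    rw [lintegral_const_mul, lintegral_finsetSum]
    · have h4 : ∀ v ∈ (Finset.univ : Finset (Fin D → ZMod L)),
          ∫⁻ x, ‖f (R (vl v) x)‖ₑ ^ 2 ∂μ = ∫⁻ x, ‖f x‖ₑ ^ 2 ∂μ :=
        fun v _ => (hR (vl v)).lintegral_comp hf2
      rw [Finset.sum_congr rfl h4, Finset.sum_const, Finset.card_univ, Fintype.card_fun,
        ZMod.card, Fintype.card_fin, nsmul_eq_mul]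
      push_cast
      rfl
    · intro v _
      exact hf2.comp (hRm (vl v))
    · exact Finset.measurable_fun_sum _ fun v _ => hf2.comp (hRm (vl v))
  rw [h2, h3] at h1
  have hHne : (H : ℝ≥0∞) ^ D ≠ 0 := pow_ne_zero _ (Nat.cast_ne_zero.2 hH0.ne')
  have hHtop : (H : ℝ≥0∞) ^ D ≠ ⊤ := ENNReal.pow_ne_top (ENNReal.natCast_ne_top H)
  have h4 : B * ((L : ℝ≥0∞) ^ D * ∫⁻ x, ‖f x‖ₑ ^ 2 ∂μ) =
      (H : ℝ≥0∞) ^ D * ((2 ^ D * B : ℝ≥0) * ∫⁻ x, ‖f x‖ₑ ^ 2 ∂μ) := by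
    rw [hL]
    push_cast
    rw [mul_pow]
    ring
  rw [h4] at h1
  exact (ENNReal.mul_le_mul_iff_right hHne hHtop).1 h1

lemma measurable_fsup' {Y : Type*} [MeasurableSpace Y] (s : Finset ℕ) {f : ℕ → Y → ℝ≥0}
    (hf : ∀ j, Measurable (f j)) : Measurable fun x => s.sup fun j => f j x := by
  induction s using Finset.induction_on with
  | empty =>
    simp only [Finset.sup_empty]
    exact measurable_const
  | insert a s ha ih =>
    simp only [Finset.sup_insert]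
    exact (hf a).sup ih

lemma measurable_dif (N N' : ℕ) : Measurable fun a : ℕ → ℂ => ‖a N - a N'‖₊ ^ 2 := by
  have hp : ∀ N : ℕ, Measurable fun a : ℕ → ℂ => a N := fun N => measurable_pi_apply N
  exact ((hp N).sub (hp N')).nnnorm.pow_const 2

/-- oscillation inequality for measure preserving actions -/
theorem osc_action (D : ℕ) {ε : ℝ≥0} (hε : 0 < ε) : ∃ J₀ : ℕ, ∀ (X : Type) [MeasurableSpace X]
    (μ : Measure X) (R : (Fin D → ℕ) → X → X), (∀ m n x, R (m + n) x = R m (R n x)) →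
    (∀ m, MeasurePreserving (R m) μ μ) → ∀ f : X → ℂ, Measurable f →
    ∀ σ : ℕ → ℕ, StrictMono σ → ∀ J : ℕ, J₀ ≤ J →
    ∑ i ∈ range J, ∫⁻ x, ((Ico (σ i) (σ (i + 1))).sup fun k =>
      ‖Av R f x (2 ^ k) - Av R f x (2 ^ σ i)‖ₑ ^ 2) ∂μ ≤ ε * J * ∫⁻ x, ‖f x‖ₑ ^ 2 ∂μ := by
  have hε' : (0 : ℝ) < ε / 2 ^ D := by positivity
  obtain ⟨J₀, hJ₀⟩ := oscfin D hε'
  refine ⟨J₀, fun X _ μ R hRadd hR f hf σ hσ J hJ => ?_⟩
  set G : (ℕ → ℂ) → ℝ≥0 := fun a => ∑ i ∈ range J, (Ico (σ i) (σ (i + 1))).sup fun k =>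
    ‖a (2 ^ k) - a (2 ^ σ i)‖₊ ^ 2 with hG
  have hGm : Measurable G :=
    Finset.measurable_fun_sum _ fun i _ => measurable_fsup' _ fun k =>
      measurable_dif (2 ^ k) (2 ^ σ i)
  have hloc : ∀ a b : ℕ → ℂ, (∀ N, N ≤ 2 ^ (σ J) → a N = b N) → G a = G b := by
    intro a b hab
    simp only [hG]
    refine Finset.sum_congr rfl fun i hi => ?_
    have hiJ : σ (i + 1) ≤ σ J := hσ.monotone (Finset.mem_range.1 hi)
    have hi1 : σ i < σ (i + 1) := hσ (Nat.lt_succ_self i)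
    refine Finset.sup_congr rfl fun k hk => ?_
    have hk2 := (Finset.mem_Ico.1 hk).2
    rw [hab _ (Nat.pow_le_pow_right two_pos (by omega)),
      hab _ (Nat.pow_le_pow_right two_pos (by omega))]
  have hfin : ∀ (L : ℕ) [NeZero L] (F : (Fin D → ZMod L) → ℂ),
      ∑ x, G (TA F x) ≤ (ε / 2 ^ D * J) * ∑ x, ‖F x‖₊ ^ 2 := by
    intro L _ F
    have hsel : ∀ i (x : Fin D → ZMod L), ∃ k, k ∈ Ico (σ i) (σ (i + 1)) ∧
        ((Ico (σ i) (σ (i + 1))).sup fun k => ‖TA F x (2 ^ k) - TA F x (2 ^ σ i)‖₊ ^ 2) =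
          ‖TA F x (2 ^ k) - TA F x (2 ^ σ i)‖₊ ^ 2 := by
      intro i x
      exact Finset.exists_mem_eq_sup _ ⟨σ i, Finset.mem_Ico.2 ⟨le_rfl, hσ (Nat.lt_succ_self i)⟩⟩ _
    choose j hj1 hj2 using hsel
    have h1 := hJ₀ L F σ hσ j (fun i x => Finset.mem_Ico.1 (hj1 i x)) J hJ
    have h2 : ((∑ x, G (TA F x) : ℝ≥0) : ℝ) =
        ∑ i ∈ range J, ∑ x, ‖TA F x (2 ^ j i x) - TA F x (2 ^ σ i)‖ ^ 2 := by
      rw [Finset.sum_comm]
      simp only [hj2]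
      push_cast
      rfl
    rw [← NNReal.coe_le_coe, h2]
    refine h1.trans (le_of_eq ?_)
    push_cast
    rfl
  have h1 := transfer (D := D) (B := ε / 2 ^ D * J) (G := G) (J := σ J) hloc hGm hfin hRadd hR hf
  have h2 : ∑ i ∈ range J, ∫⁻ x, ((Ico (σ i) (σ (i + 1))).sup fun k =>
      ‖Av R f x (2 ^ k) - Av R f x (2 ^ σ i)‖ₑ ^ 2) ∂μ = ∫⁻ x, G (Av R f x) ∂μ := by
    rw [← lintegral_finsetSum]
    · refine lintegral_congr fun x => ?_
      simp only [hG]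
      push_cast
      rfl
    · intro i _
      refine measurable_fsup _ fun k => ?_
      exact ((measurable_Av (fun m => (hR m).measurable) hf (2 ^ k)).sub
        (measurable_Av (fun m => (hR m).measurable) hf (2 ^ σ i))).enorm.pow_const 2
  rw [h2]
  refine h1.trans (le_of_eq ?_)
  congr 1
  have h3 : (2 ^ D * (ε / 2 ^ D * J) : ℝ≥0) = ε * J := by
    field_simp
  rw [h3]
  push_cast
  rfl

/-- square function inequality for measure preserving actions -/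
theorem sq_action (D : ℕ) (K : ℕ) (hK : 1 ≤ K) : ∃ A : ℝ≥0, ∀ (X : Type) [MeasurableSpace X]
    (μ : Measure X) (R : (Fin D → ℕ) → X → X), (∀ m n x, R (m + n) x = R m (R n x)) →
    (∀ m, MeasurePreserving (R m) μ μ) → ∀ f : X → ℂ, Measurable f →
    ∫⁻ x, ∑' k, ‖Av R f x (K * 2 ^ k) - Av R f x (2 ^ k)‖ₑ ^ 2 ∂μ ≤ A * ∫⁻ x, ‖f x‖ₑ ^ 2 ∂μ := by
  obtain ⟨A, hA, hfin0⟩ := sqfin D K hK
  refine ⟨2 ^ D * A.toNNReal, fun X _ μ R hRadd hR f hf => ?_⟩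
  have hm0 : ∀ k, Measurable fun x => ‖Av R f x (K * 2 ^ k) - Av R f x (2 ^ k)‖ₑ ^ 2 := fun k =>
    ((measurable_Av (fun m => (hR m).measurable) hf (K * 2 ^ k)).sub
        (measurable_Av (fun m => (hR m).measurable) hf (2 ^ k))).enorm.pow_const 2
  rw [lintegral_tsum fun k => (hm0 k).aemeasurable]
  refine ENNReal.tsum_le_of_sum_range_le fun n => ?_
  set G : (ℕ → ℂ) → ℝ≥0 := fun a => ∑ k ∈ range n, ‖a (K * 2 ^ k) - a (2 ^ k)‖₊ ^ 2 with hG
  have hGm : Measurable G := Finset.measurable_fun_sum _ fun k _ =>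
    measurable_dif (K * 2 ^ k) (2 ^ k)
  have hloc : ∀ a b : ℕ → ℂ, (∀ N, N ≤ 2 ^ (K + n) → a N = b N) → G a = G b := by
    intro a b hab
    simp only [hG]
    refine Finset.sum_congr rfl fun k hk => ?_
    have hk2 := Finset.mem_range.1 hk
    have h1 : K * 2 ^ k ≤ 2 ^ (K + n) := by
      have : K ≤ 2 ^ K := Nat.lt_two_pow_self.le
      calc K * 2 ^ k ≤ 2 ^ K * 2 ^ n := Nat.mul_le_mul this (Nat.pow_le_pow_right two_pos hk2.le)
        _ = 2 ^ (K + n) := (pow_add 2 K n).symm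
    rw [hab _ h1, hab _ (Nat.pow_le_pow_right two_pos (by omega))]
  have hfin : ∀ (L : ℕ) [NeZero L] (F : (Fin D → ZMod L) → ℂ),
      ∑ x, G (TA F x) ≤ A.toNNReal * ∑ x, ‖F x‖₊ ^ 2 := by
    intro L _ F
    have h1 := hfin0 L F n
    rw [← NNReal.coe_le_coe]
    refine (le_of_eq ?_).trans (h1.trans (le_of_eq ?_))
    · have e1 : (∑ x, G (TA F x)) =
          ∑ k ∈ range n, ∑ x, ‖TA F x (K * 2 ^ k) - TA F x (2 ^ k)‖₊ ^ 2 := Finset.sum_comm
      rw [e1]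
      push_cast
      rfl
    · push_cast
      rw [Real.coe_toNNReal A hA]
  have h1 := transfer (D := D) (B := A.toNNReal) (G := G) (J := K + n) hloc hGm hfin hRadd hR hf
  refine (le_of_eq ?_).trans h1
  rw [← lintegral_finsetSum _ fun k _ => hm0 k]
  refine lintegral_congr fun x => ?_
  simp only [hG]
  push_cast
  rfl

end Pool.Agent.Lib.Pf720ae.Poly
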